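import Pool.Agent.Q206.CK.Inst

/-!
# Few clicks remove few layers
-/

namespace Pool.Agent.Q206.CK

open Relation

section
variable {n b C : ℕ} {cov : ℕ → ℕ → Bool} {X : Set (ℕ × ℕ)}

theorem cut_cut (ℓ : ℕ → ℕ → ℕ) (X Y : Set (ℕ × ℕ)) : cut (cut ℓ X) Y = cut ℓ (X ∪ Y) := by
  classical
  funext c i
  unfold cut
  by_cases h1 : (c, i) ∈ X <;> by_cases h2 : (c, i) ∈ Y <;> simp [h1, h2]

theorem comp_pres {M : ℕ} {col ℓ : ℕ → ℕ → ℕ} {x y : ℕ × ℕ} (hx : Pres C M ℓ x)
    (h : y ∈ comp C M col ℓ x) : Pres C M ℓ y ∧ col x.1 x.2 = col y.1 y.2 := by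
  have h' : ReflTransGen (Link C M col ℓ) x y := h
  induction h' with
  | refl => exact ⟨hx, rfl⟩
  | tail _ h2 ih => exact ⟨h2.2.1, (ih ‹_›).2.trans h2.2.2.1⟩

theorem comp_link {M : ℕ} {col ℓ : ℕ → ℕ → ℕ} {x z : ℕ × ℕ}
    (h : z ∈ comp C M col ℓ x) : z = x ∨ ∃ y, Link C M col ℓ z y := by
  have h' : ReflTransGen (Link C M col ℓ) x z := h
  rcases ReflTransGen.cases_tail h' with h1 | ⟨y, -, h2⟩
  · exact Or.inl h1
  · exact Or.inr ⟨y, h2.symm⟩

/-- The pieces of a layer are joined to each other. -/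
theorem conn_layer (hX : Unif n C X) {i : ℕ} (h1 : 1 ≤ i) (h2 : i ≤ 2 * n) (h3 : (0, i) ∉ X)
    {c c' : ℕ} (hc : c < C) (hc' : c' < C) :
    ReflTransGen (Link C (2 * n + 3) (colr n) (cut (len n b cov) X)) (c, i) (c', i) := by
  have h4 : ∀ c < C, (c, i) ∉ X := fun c hc h => h3 ((hX.unif c hc i h1 h2).1 h)
  have key : ∀ d c, c + d < C →
      ReflTransGen (Link C (2 * n + 3) (colr n) (cut (len n b cov) X)) (c, i) (c + d, i) ∧
      ReflTransGen (Link C (2 * n + 3) (colr n) (cut (len n b cov) X)) (c + d, i) (c, i) := by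
    intro d
    induction d with
    | zero => intro c _; exact ⟨ReflTransGen.refl, ReflTransGen.refl⟩
    | succ d ih =>
      intro c hc
      obtain ⟨h5, h6⟩ := ih c (by omega)
      have h7 := link_layer (b := b) (cov := cov) hX (c := c + d) (c' := c + d + 1) (by omega)
        (by omega) (Or.inl rfl) h1 h2 (h4 _ (by omega))
      exact ⟨h5.tail h7, ReflTransGen.head h7.symm h6⟩
  rcases le_total c c' with h | h
  · obtain ⟨d, rfl⟩ := Nat.exists_eq_add_of_le h
    exact (key d c hc').1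
  · obtain ⟨d, rfl⟩ := Nat.exists_eq_add_of_le h
    exact (key d c' hc).2

/-- The pieces joined to a layer are layers of the same run. -/
theorem comp_run (hX : Unif n C X) {x : ℕ × ℕ}
    (hx : Pres C (2 * n + 3) (cut (len n b cov) X) x) (h1 : 1 ≤ x.2) (h2 : x.2 ≤ 2 * n)
    {y : ℕ × ℕ} (h : y ∈ comp C (2 * n + 3) (colr n) (cut (len n b cov) X) x) :
    (1 ≤ y.2 ∧ y.2 ≤ 2 * n) ∧ (x.2 % 2 = y.2 % 2) ∧
      ∀ l, 1 ≤ l → l ≤ 2 * n → (0, l) ∉ X → (x.2 < l ∧ l < y.2 ∨ y.2 < l ∧ l < x.2) →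
        l % 2 = x.2 % 2 := by
  have hcol : ∀ z, z ∈ comp C (2 * n + 3) (colr n) (cut (len n b cov) X) x →
      (1 ≤ z.2 ∧ z.2 ≤ 2 * n) ∧ x.2 % 2 = z.2 % 2 := by
    intro z hz
    have h3 := (comp_pres hx hz).2
    have h4 : colr n x.1 x.2 < 2 := colr_lt_two.2 ⟨h1, h2⟩
    have h5 := colr_lt_two.1 (h3 ▸ h4)
    rw [colr_layer h1 h2, colr_layer h5.1 h5.2] at h3
    exact ⟨h5, by omega⟩
  refine ⟨(hcol y h).1, (hcol y h).2, ?_⟩
  have h' : ReflTransGen (Link C (2 * n + 3) (colr n) (cut (len n b cov) X)) x y := h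
  clear h
  induction h' with
  | refl => intro l _ _ _ h3; omega
  | @tail y z hy hyz ih =>
    intro l hl1 hl2 hl h3
    have h4 := hcol y hy
    have h5 := hcol z (hy.tail hyz)
    by_cases h6 : l = y.2
    · omega
    rcases h3 with ⟨h7, h8⟩ | ⟨h7, h8⟩
    · rcases lt_or_gt_of_ne h6 with h9 | h9
      · exact ih l hl1 hl2 hl (Or.inl ⟨h7, h9⟩)
      · exact absurd (link_between hX hyz h9 h8 hl1 hl2) hl
    · rcases lt_or_gt_of_ne h6 with h9 | h9
      · exact absurd (link_between hX hyz.symm h7 h9 hl1 hl2) hl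
      · exact ih l hl1 hl2 hl (Or.inr ⟨h9, h8⟩)

/-- The state after `s` clicks, `r` of which on layers. -/
structure Inv (n C : ℕ) (cov : ℕ → ℕ → Bool) (X : Set (ℕ × ℕ)) (r s : ℕ) (A Bad : Finset ℕ) :
    Prop where
  unif : Unif n C X
  mem : ∀ j ∈ A, j < n ∧ (0, 2 * j + 1) ∉ X
  sep : ∀ j ∈ A, ∀ j' ∈ A, j < j' → ∃ l, j ≤ l ∧ l < j' ∧ (0, 2 * l + 2) ∉ X
  card : n ≤ A.card + r
  rs : r ≤ s
  bar : ∀ c < C, (c, 2 * n + 2) ∈ X → r + 1 ≤ s
  bad : Bad.card ≤ s
  good : ∀ c < C, c % 2 = 1 → c ∉ Bad → (c, 2 * n + 1) ∉ X ∧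
    ((c, 2 * n + 2) ∈ X → ∃ j < n, cov (c / 2 % n) j = true ∧ (0, 2 * j + 1) ∈ X)

theorem step_layer {r s : ℕ} {A Bad : Finset ℕ} (hI : Inv n C cov X r s A Bad) {x : ℕ × ℕ}
    (hx : Pres C (2 * n + 3) (cut (len n b cov) X) x) (h1 : 1 ≤ x.2) (h2 : x.2 ≤ 2 * n) :
    ∃ A', Inv n C cov (X ∪ comp C (2 * n + 3) (colr n) (cut (len n b cov) X) x) (r + 1) (s + 1)
      A' Bad := by
  classical
  have hX := hI.unif
  have hC : 0 < C := lt_of_le_of_lt (Nat.zero_le _) hx.1
  set G := comp C (2 * n + 3) (colr n) (cut (len n b cov) X) x with hG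
  have hlay : ∀ {c i}, (c, i) ∈ G → 1 ≤ i ∧ i ≤ 2 * n := fun h => (comp_run hX hx h1 h2 h).1
  have hpar : ∀ {c i}, (c, i) ∈ G → x.2 % 2 = i % 2 := fun h => (comp_run hX hx h1 h2 h).2.1
  have hrun : ∀ {c i}, (c, i) ∈ G → ∀ l, 1 ≤ l → l ≤ 2 * n → (0, l) ∉ X →
      (x.2 < l ∧ l < i ∨ i < l ∧ l < x.2) → l % 2 = x.2 % 2 :=
    fun h => (comp_run hX hx h1 h2 h).2.2
  have hU : Unif n C (X ∪ G) := by
    constructor
    · rintro c (h | h)
      · exact hX.bot c h
      · have := hlay h; omega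
    · intro c hc i hi1 hi2
      have e : (c, i) ∈ G ↔ (0, i) ∈ G := by
        constructor
        · intro h
          have h3 := (comp_pres hx h).1.notMem
          have h4 : (0, i) ∉ X := fun h5 => h3 ((hX.unif c hc i hi1 hi2).2 h5)
          exact (show ReflTransGen _ x (c, i) from h).trans (conn_layer hX hi1 hi2 h4 hc hC)
        · intro h
          have h4 : (0, i) ∉ X := (comp_pres hx h).1.notMem
          exact (show ReflTransGen _ x (0, i) from h).trans (conn_layer hX hi1 hi2 h4 hC hc)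
      rw [Set.mem_union, Set.mem_union, hX.unif c hc i hi1 hi2, e]
  have hbar : ∀ c, (c, 2 * n + 2) ∈ X ∪ G → (c, 2 * n + 2) ∈ X := by
    rintro c (h | h)
    · exact h
    · have := hlay h; omega
  have hfil : ∀ c, (c, 2 * n + 1) ∈ X ∪ G → (c, 2 * n + 1) ∈ X := by
    rintro c (h | h)
    · exact h
    · have := hlay h; omega
  have main : ∃ A' : Finset ℕ, (∀ j ∈ A', j < n ∧ (0, 2 * j + 1) ∉ X ∪ G) ∧
      (∀ j ∈ A', ∀ j' ∈ A', j < j' → ∃ l, j ≤ l ∧ l < j' ∧ (0, 2 * l + 2) ∉ X ∪ G) ∧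
      A.card ≤ A'.card + 1 := by
    rcases Nat.mod_two_eq_zero_or_one x.2 with hp | hp
    · -- a layer of colour 1
      have hodd : ∀ j, (0, 2 * j + 1) ∉ G := fun j h => by have := hpar h; omega
      -- broken pairs
      have hbr : ∀ j ∈ A, ∀ j' ∈ A, j < j' →
          (∀ l, j ≤ l → l < j' → (0, 2 * l + 2) ∈ X ∪ G) → 2 * j + 1 < x.2 ∧ x.2 < 2 * j' + 1 := by
        intro j hj j' hj' hjj hl
        obtain ⟨l, h3, h4, h5⟩ := hI.sep j hj j' hj' hjj
        have h6 : (0, 2 * l + 2) ∈ G := by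
          rcases hl l h3 h4 with h | h
          · exact absurd h h5
          · exact h
        have hr := hrun h6
        have hj1 := hI.mem j hj
        have hj2 := hI.mem j' hj'
        constructor
        · by_contra h7
          have := hr (2 * j + 1) (by omega) (by omega) hj1.2 (Or.inl ⟨by omega, by omega⟩)
          omega
        · by_contra h7
          have := hr (2 * j' + 1) (by omega) (by omega) hj2.2 (Or.inr ⟨by omega, by omega⟩)
          omega
      by_cases hne : (A.filter fun a => 2 * a + 1 < x.2).Nonempty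
      · obtain ⟨a0, ha0, hmax⟩ := Finset.exists_max_image _ (fun a => a) hne
        rw [Finset.mem_filter] at ha0
        refine ⟨A.erase a0, ?_, ?_, ?_⟩
        · intro j hj
          have hj' := Finset.mem_of_mem_erase hj
          refine ⟨(hI.mem j hj').1, ?_⟩
          rintro (h | h)
          · exact (hI.mem j hj').2 h
          · exact hodd j h
        · intro j hj j' hj' hjj
          by_contra hcon
          push Not at hcon
          have hjA := Finset.mem_of_mem_erase hj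
          have hjA' := Finset.mem_of_mem_erase hj'
          have h3 := hbr j hjA j' hjA' hjj hcon
          have h4 : j ≤ a0 := hmax j (Finset.mem_filter.2 ⟨hjA, h3.1⟩)
          have h5 : j ≠ a0 := Finset.ne_of_mem_erase hj
          obtain ⟨l, h6, h7, h8⟩ := hI.sep j hjA a0 ha0.1 (by omega)
          have h9 : (0, 2 * l + 2) ∈ G := by
            rcases hcon l h6 (by omega) with h | h
            · exact absurd h h8
            · exact h
          have := hrun h9 (2 * a0 + 1) (by omega) (by have := (hI.mem a0 ha0.1).1; omega)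
            (hI.mem a0 ha0.1).2 (Or.inr ⟨by omega, by omega⟩)
          omega
        · rw [Finset.card_erase_of_mem ha0.1]
          omega
      · refine ⟨A, ?_, ?_, by omega⟩
        · intro j hj
          refine ⟨(hI.mem j hj).1, ?_⟩
          rintro (h | h)
          · exact (hI.mem j hj).2 h
          · exact hodd j h
        · intro j hj j' hj' hjj
          by_contra hcon
          push Not at hcon
          have h3 := hbr j hj j' hj' hjj hcon
          exact hne ⟨j, Finset.mem_filter.2 ⟨hj, h3.1⟩⟩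
    · -- a layer of colour 0
      refine ⟨A.filter fun j => (0, 2 * j + 1) ∉ G, ?_, ?_, ?_⟩
      · intro j hj
        rw [Finset.mem_filter] at hj
        refine ⟨(hI.mem j hj.1).1, ?_⟩
        rintro (h | h)
        · exact (hI.mem j hj.1).2 h
        · exact hj.2 h
      · intro j hj j' hj' hjj
        rw [Finset.mem_filter] at hj hj'
        obtain ⟨l, h3, h4, h5⟩ := hI.sep j hj.1 j' hj'.1 hjj
        refine ⟨l, h3, h4, ?_⟩
        rintro (h | h)
        · exact h5 h
        · have := hpar h; omega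
      · have h3 : (A.filter fun j => ¬ (0, 2 * j + 1) ∉ G).card ≤ 1 := by
          rw [Finset.card_le_one]
          have key : ∀ j ∈ A, ∀ j' ∈ A, (0, 2 * j + 1) ∈ G → (0, 2 * j' + 1) ∈ G → ¬ j < j' := by
            intro j hj j' hj' hg hg' hjj
            obtain ⟨l, h3, h4, h5⟩ := hI.sep j hj j' hj' hjj
            have h6 := (hI.mem j' hj').1
            rcases lt_or_ge x.2 (2 * l + 2) with h7 | h7
            · have := hrun hg' (2 * l + 2) (by omega) (by omega) h5 (Or.inl ⟨h7, by omega⟩)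
              omega
            · have := hrun hg (2 * l + 2) (by omega) (by omega) h5 (Or.inr ⟨by omega, by omega⟩)
              omega
          intro j hj j' hj'
          rw [Finset.mem_filter, not_not] at hj hj'
          have k1 := key j hj.1 j' hj'.1 hj.2 hj'.2
          have k2 := key j' hj'.1 j hj.1 hj'.2 hj.2
          omega
        have h4 := Finset.card_filter_add_card_filter_not (s := A) (fun j => (0, 2 * j + 1) ∉ G)
        omega
  obtain ⟨A', hm, hs, hcard⟩ := main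
  refine ⟨A', hU, hm, hs, ?_, ?_, ?_, ?_, ?_⟩
  · have := hI.card; omega
  · have := hI.rs; omega
  · intro c hc h
    have := hI.bar c hc (hbar c h); omega
  · have := hI.bad; omega
  · intro c hc ho hb
    obtain ⟨h3, h4⟩ := hI.good c hc ho hb
    refine ⟨fun h => h3 (hfil c h), fun h => ?_⟩
    obtain ⟨j, hj, h5, h6⟩ := h4 (hbar c h)
    exact ⟨j, hj, h5, Or.inl h6⟩

/-- Removing pieces that are not layers. -/
theorem unif_union (hX : Unif n C X) {G : Set (ℕ × ℕ)} (hG : ∀ y ∈ G, 2 * n + 1 ≤ y.2) :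
    Unif n C (X ∪ G) := by
  constructor
  · rintro c (h | h)
    · exact hX.bot c h
    · have h1 : 2 * n + 1 ≤ 0 := hG _ h
      omega
  · intro c hc i h1 h2
    have e : ∀ c, (c, i) ∉ G := fun c h => by have h1 : 2 * n + 1 ≤ i := hG _ h; omega
    rw [Set.mem_union, Set.mem_union, hX.unif c hc i h1 h2]
    simp [e]

theorem step_filler {r s : ℕ} {A Bad : Finset ℕ} (hI : Inv n C cov X r s A Bad) {x : ℕ × ℕ}
    {i : ℕ} (hi : 2 * n + 1 ≤ i) (hx : x.2 = i) (hr : (∃ c, (c, 2 * n + 2) ∈ ({x} : Set (ℕ × ℕ))) → r + 1 ≤ s + 1) :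
    Inv n C cov (X ∪ {x}) r (s + 1) A (insert x.1 Bad) := by
  have hodd : ∀ j, j < n → (0, 2 * j + 1) ∉ ({x} : Set (ℕ × ℕ)) := by
    intro j hj h
    rw [Set.mem_singleton_iff] at h
    have : (0, 2 * j + 1).2 = x.2 := by rw [h]
    simp only at this
    omega
  have heven : ∀ l, l < n → (0, 2 * l + 2) ∉ ({x} : Set (ℕ × ℕ)) := by
    intro j hj h
    rw [Set.mem_singleton_iff] at h
    have : (0, 2 * j + 2).2 = x.2 := by rw [h]
    simp only at this
    omega
  refine ⟨unif_union hI.unif ?_, ?_, ?_, hI.card, ?_, ?_, ?_, ?_⟩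
  · intro y hy
    rw [Set.mem_singleton_iff] at hy
    rw [hy]; omega
  · intro j hj
    refine ⟨(hI.mem j hj).1, ?_⟩
    rintro (h | h)
    · exact (hI.mem j hj).2 h
    · exact hodd j (hI.mem j hj).1 h
  · intro j hj j' hj' hjj
    obtain ⟨l, h3, h4, h5⟩ := hI.sep j hj j' hj' hjj
    refine ⟨l, h3, h4, ?_⟩
    rintro (h | h)
    · exact h5 h
    · exact heven l (by have := (hI.mem j' hj').1; omega) h
  · have := hI.rs; omega
  · rintro c hc (h | h)
    · have := hI.bar c hc h; omega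
    · exact hr ⟨c, h⟩
  · refine (Finset.card_insert_le _ _).trans ?_
    have := hI.bad; omega
  · intro c hc ho hb
    rw [Finset.mem_insert, not_or] at hb
    obtain ⟨h3, h4⟩ := hI.good c hc ho hb.2
    have hne : ∀ i, (c, i) ∉ ({x} : Set (ℕ × ℕ)) := by
      intro i h
      rw [Set.mem_singleton_iff] at h
      exact hb.1 (by rw [← h])
    refine ⟨?_, ?_⟩
    · rintro (h | h)
      · exact h3 h
      · exact hne _ h
    · rintro (h | h)
      · obtain ⟨j, hj, h5, h6⟩ := h4 h
        exact ⟨j, hj, h5, Or.inl h6⟩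
      · exact absurd h (hne _)

theorem step_bar {r s : ℕ} {A Bad : Finset ℕ} (hI : Inv n C cov X r s A Bad) {G : Set (ℕ × ℕ)}
    (hG : ∀ z ∈ G, z.2 = 2 * n + 2 ∧ ∃ y, Link C (2 * n + 3) (colr n) (cut (len n b cov) X) z y) :
    Inv n C cov (X ∪ G) r (s + 1) A Bad := by
  have hodd : ∀ j, j < n → (0, 2 * j + 1) ∉ G := by
    intro j hj h
    have : 2 * j + 1 = 2 * n + 2 := (hG _ h).1
    omega
  have heven : ∀ l, l < n → (0, 2 * l + 2) ∉ G := by
    intro j hj h
    have : 2 * j + 2 = 2 * n + 2 := (hG _ h).1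
    omega
  refine ⟨unif_union hI.unif fun y hy => ?_, ?_, ?_, hI.card, ?_, ?_, ?_, ?_⟩
  · rw [(hG y hy).1]; omega
  · intro j hj
    refine ⟨(hI.mem j hj).1, ?_⟩
    rintro (h | h)
    · exact (hI.mem j hj).2 h
    · exact hodd j (hI.mem j hj).1 h
  · intro j hj j' hj' hjj
    obtain ⟨l, h3, h4, h5⟩ := hI.sep j hj j' hj' hjj
    refine ⟨l, h3, h4, ?_⟩
    rintro (h | h)
    · exact h5 h
    · exact heven l (by have := (hI.mem j' hj').1; omega) h
  · have := hI.rs; omega
  · rintro c hc -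
    have := hI.rs; omega
  · have := hI.bad; omega
  · intro c hc ho hb
    obtain ⟨h3, h4⟩ := hI.good c hc ho hb
    refine ⟨?_, ?_⟩
    · rintro (h | h)
      · exact h3 h
      · have : 2 * n + 1 = 2 * n + 2 := (hG _ h).1
        omega
    · rintro (h | h)
      · obtain ⟨j, hj, h5, h6⟩ := h4 h
        exact ⟨j, hj, h5, Or.inl h6⟩
      · obtain ⟨-, y, hy⟩ := hG _ h
        obtain ⟨j, hj, h5, h6⟩ := link_bar hI.unif ho h3 hy
        exact ⟨j, hj, h5, Or.inl h6⟩

/-- **One click.** -/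
theorem step {r s : ℕ} {A Bad : Finset ℕ} (hI : Inv n C cov X r s A Bad) {x : ℕ × ℕ}
    (hx : Pres C (2 * n + 3) (cut (len n b cov) X) x)
    (h2 : 2 ≤ cut (len n b cov) X x.1 x.2 ∨
      ∃ y, Link C (2 * n + 3) (colr n) (cut (len n b cov) X) x y) :
    ∃ r' A' Bad', Inv n C cov (X ∪ comp C (2 * n + 3) (colr n) (cut (len n b cov) X) x) r' (s + 1)
      A' Bad' := by
  obtain ⟨c, i⟩ := x
  have hi : i < 2 * n + 3 := hx.2.1
  rcases Nat.eq_zero_or_pos i with h0 | h0
  · subst h0
    exfalso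
    rcases h2 with h2 | ⟨y, h2⟩
    · have h2' : 2 ≤ cut (len n b cov) X c 0 := h2
      rw [cut_of_notMem (hI.unif.bot c)] at h2'
      simp [len] at h2'
    · exact not_link_bot hI.unif h2
  rcases le_or_gt i (2 * n) with h1 | h1
  · obtain ⟨A', h⟩ := step_layer hI hx h0 h1
    exact ⟨r + 1, A', Bad, h⟩
  have single : (¬ ∃ y, Link C (2 * n + 3) (colr n) (cut (len n b cov) X) (c, i) y) →
      comp C (2 * n + 3) (colr n) (cut (len n b cov) X) (c, i) = {(c, i)} := by
    intro h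
    ext z
    rw [Set.mem_singleton_iff]
    constructor
    · intro hz
      rcases ReflTransGen.cases_head (show ReflTransGen _ (c, i) z from hz) with h3 | ⟨y, h3, -⟩
      · exact h3.symm
      · exact absurd ⟨y, h3⟩ h
    · rintro rfl; exact ReflTransGen.refl
  by_cases hl : ∃ y, Link C (2 * n + 3) (colr n) (cut (len n b cov) X) (c, i) y
  · have h3 : i = 2 * n + 2 := by
      by_contra h3
      have : i = 2 * n + 1 := by omega
      subst this
      obtain ⟨y, hy⟩ := hl
      exact not_link_filler hy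
    subst h3
    refine ⟨r, A, Bad, step_bar (b := b) hI fun z hz => ⟨?_, ?_⟩⟩
    · have h4 := comp_pres hx hz
      have h5 : colr n c (2 * n + 2) = 3 := colr_eq_three.2 (by omega)
      have h6 : colr n z.1 z.2 = 3 := h4.2.symm.trans h5
      have h7 := colr_eq_three.1 h6
      have h8 := h4.1.2.1
      omega
    · rcases comp_link hz with h4 | h4
      · rw [h4]; exact hl
      · exact h4
  · rw [single hl]
    refine ⟨r, A, _, step_filler (i := i) hI (by omega) rfl ?_⟩
    have := hI.rs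
    intro _; omega

/-- The empty columns are not created. -/
theorem filter_board (hX : Unif n C X) :
    (boardF C (2 * n + 3) (colr n) (cut (len n b cov) X)).filter (fun C => decide (C ≠ [])) =
      boardF C (2 * n + 3) (colr n) (cut (len n b cov) X) := by
  rw [List.filter_eq_self]
  intro l hl
  unfold boardF at hl
  rw [List.mem_map] at hl
  obtain ⟨c, -, rfl⟩ := hl
  rw [decide_eq_true_eq]
  intro h
  have h1 := length_colF (2 * n + 3) (colr n c) (cut (len n b cov) X c)
  rw [h] at h1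
  have h2 := off_mono (cut (len n b cov) X c) (show 0 + 1 ≤ 2 * n + 3 by omega)
  rw [off_succ, cut_of_notMem (hX.bot c)] at h2
  simp [len] at h2
  simp at h1
  omega

theorem clicks_inv (j : ℕ) : ∀ (X : Set (ℕ × ℕ)) {r s : ℕ} {A Bad : Finset ℕ} {B' : Board},
    Inv n C cov X r s A Bad →
    Clicks j (boardF C (2 * n + 3) (colr n) (cut (len n b cov) X)) B' →
    ∃ X' r' A' Bad', B' = boardF C (2 * n + 3) (colr n) (cut (len n b cov) X') ∧
      Inv n C cov X' r' (s + j) A' Bad' := by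
  induction j with
  | zero =>
    intro X r s A Bad B' hI h
    exact ⟨X, r, A, Bad, (show _ = B' from h).symm, hI⟩
  | succ j ih =>
    intro X r s A Bad B' hI h
    obtain ⟨B'', h1, h2⟩ := h
    obtain ⟨x, hx, h3, rfl⟩ := click_iff.1 h1
    obtain ⟨r', A', Bad', hI'⟩ := step hI hx h3
    rw [cut_cut, filter_board hI'.unif] at h2
    obtain ⟨X', r'', A'', Bad'', h4, h5⟩ := ih _ hI' h2
    exact ⟨X', r'', A'', Bad'', h4, by rw [show s + (j + 1) = s + 1 + j by omega]; exact h5⟩

theorem inv_init (n C : ℕ) (cov : ℕ → ℕ → Bool) :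
    Inv n C cov ∅ 0 0 (Finset.range n) ∅ := by
  refine ⟨⟨fun c h => h, fun c _ i _ _ => by simp⟩, ?_, ?_, ?_, le_rfl, ?_, ?_, ?_⟩
  · intro j hj
    exact ⟨Finset.mem_range.1 hj, fun h => h⟩
  · intro j _ j' _ h
    exact ⟨j, le_rfl, h, fun h => h⟩
  · simp
  · intro c _ h; exact absurd h (Set.notMem_empty _)
  · simp
  · intro c _ _ _
    exact ⟨fun h => h, fun h => absurd h (Set.notMem_empty _)⟩

end

end Pool.Agent.Q206.CK
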