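import Mathlib
import Pool.Agent.H557R2.FptDefs

/-!
# Clickomania with a bounded number of clicks, and the class `W[2]`
-/

namespace Pool.Agent.Q206.CK

open Pool.Agent.NPC Pool.Agent.H557R2.Fpt

/-- A board: the list of its columns from left to right, each column being the list of the colours
of its tiles from bottom to top. -/
abbrev Board : Type := List (List ℕ)

/-- The colour of the tile at the position `p = (i, j)`, that is of the `j`-th tile of the
`i`-th column (both counted from `0`), if there is one. -/
def tile (B : Board) (p : ℕ × ℕ) : Option ℕ := (B[p.1]?).bind fun C => C[p.2]?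

/-- Horizontal or vertical neighbours in the grid. -/
def Nbr (p q : ℕ × ℕ) : Prop :=
  (p.1 = q.1 ∧ (p.2 + 1 = q.2 ∨ q.2 + 1 = p.2)) ∨ (p.2 = q.2 ∧ (p.1 + 1 = q.1 ∨ q.1 + 1 = p.1))

/-- Adjacent tiles of the same colour. -/
def Same (B : Board) (p q : ℕ × ℕ) : Prop :=
  Nbr p q ∧ ∃ c, tile B p = some c ∧ tile B q = some c

/-- The group of the tile at `p`: all tiles joined to it by paths of adjacent tiles of the same
colour. -/
def group (B : Board) (p : ℕ × ℕ) : Set (ℕ × ℕ) := {q | Relation.ReflTransGen (Same B) p q}

open Classical in
/-- The board after the removal of the tiles in `G`: in each column the other tiles fall down,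
keeping their order, and the columns that become empty are deleted. -/
noncomputable def remove (B : Board) (G : Set (ℕ × ℕ)) : Board :=
  (B.mapIdx fun i C => (C.zipIdx.filter fun x => decide ((i, x.2) ∉ G)).map Prod.fst).filter
    fun C => decide (C ≠ [])

/-- A click: the group of some tile `p` is removed; the group has at least two tiles, that is, `p`
has an adjacent tile of its colour. -/
def Click (B B' : Board) : Prop := ∃ p q, Same B p q ∧ B' = remove B (group B p)

/-- Some sequence of `j` clicks leads from the first board to the second one. -/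
def Clicks : ℕ → Board → Board → Prop
  | 0, B, B' => B = B'
  | j + 1, B, B' => ∃ B'', Click B B'' ∧ Clicks j B'' B'

/-- The number of tiles of a board. -/
def tiles (B : Board) : ℕ := (B.map List.length).sum

/-- `k`-Click Score-Variant Clickomania: given a board (whose columns are not empty) and a bound
`S`, can at most `k` clicks remove more than `S` tiles?  The parameter is `k`. -/
def scoreProblem : PProblem :=
  {y | ∃ (B : Board) (S : ℕ), y.1 = bits (B, S) ∧ (∀ C ∈ B, C ≠ []) ∧
    ∃ j ≤ y.2, ∃ B', Clicks j B B' ∧ S < tiles B - tiles B'}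

/-- The same problem on boards with at most `c` colours (the colours are the numbers less than
`c`). -/
def scoreProblemColours (c : ℕ) : PProblem :=
  {y | ∃ (B : Board) (S : ℕ), y.1 = bits (B, S) ∧ (∀ C ∈ B, C ≠ []) ∧ (∀ C ∈ B, ∀ t ∈ C, t < c) ∧
    ∃ j ≤ y.2, ∃ B', Clicks j B B' ∧ S < tiles B - tiles B'}

/-- `p-Dominating-Set`: has the graph a dominating set of at most `k` vertices?  Parameter `k`. -/
def pDominatingSet : PProblem :=
  {y | ∃ n, y.1.length = n * n ∧ ∃ D : Finset (Fin n), D.card ≤ y.2 ∧
    ∀ v, v ∈ D ∨ ∃ w ∈ D, (bitGraph n y.1).Adj w v}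

/-- `W[2]`, as the class of parameterized problems fpt-reducible to `p-Dominating-Set`. -/
def W2 : Set PProblem := {L | FptReduces L pDominatingSet}

/-- `W[2]`-hardness. -/
def W2Hard (L : PProblem) : Prop := ∀ L' ∈ W2, FptReduces L' L

end Pool.Agent.Q206.CK
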