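import Pool.Agent.Q206.CK.Pol

/-!
# Hardness, and transitivity of fpt-reducibility
-/

namespace Pool.Agent.Q206.CK

open Pool.Agent.NPC Pool.Agent.H557R2.Fpt Pool.Agent.H557R2

/-- Composition of fpt-computable maps. -/
theorem fptC_comp {R R' : List Bool × ℕ → List Bool × ℕ} (h : FptC R) (h' : FptC R') {g : ℕ → ℕ}
    (hg : Computable g) (hgk : ∀ x k, (R (x, k)).2 ≤ g k) : FptC (fun y => R' (R y)) := by
  obtain ⟨c, f, p, hf, h⟩ := h
  obtain ⟨c', f', p', hf', h'⟩ := h'
  obtain ⟨F', hF', hmono, hle⟩ := exists_mono hf'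
  have hB1 : FB fun x k => f k * p.eval x.length := ⟨f, p, hf, fun _ _ => le_rfl⟩
  have hL : FB fun x k => (pcode (x, k)).length + f k * p.eval x.length := FB.pcode.add hB1
  have hB : FB fun x k => f k * p.eval x.length +
      F' (g k) * p'.eval ((pcode (x, k)).length + f k * p.eval x.length) :=
    hB1.add ((FB.par (hF'.comp hg)).mul (hL.eval p'))
  obtain ⟨f2, p2, hf2, hB2⟩ := hB
  refine ⟨Cmd.seq c c', f2, p2, hf2, fun x k => ?_⟩
  refine ((h x k).seq (h' (R (x, k)).1 (R (x, k)).2)).mono ((Nat.add_le_add_left ?_ _).trans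
    (hB2 x k))
  refine Nat.mul_le_mul ((hle _).trans (hmono (hgk x k))) (eval_mono p' ?_)
  have hlen : (pcode (R (x, k))).length ≤ (pcode (x, k)).length + f k * p.eval x.length := by
    obtain ⟨t, ht, hr⟩ := h x k
    have := hr.length_le 0
    simp only [inp, Function.update_self] at this
    omega
  refine le_trans ?_ hlen
  have h1 : pcode (R (x, k)) = bits (((R (x, k)).1, List.replicate (R (x, k)).2 ()) :
    List Bool × List Unit) := rfl
  rw [h1, bits_length, sz_pair]
  have h2 := sz_listBool_ge (R (x, k)).1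
  omega

/-- Transitivity of fpt-reducibility. -/
theorem fptReduces_trans {L L' L'' : PProblem} (h : FptReduces L L') (h' : FptReduces L' L'') :
    FptReduces L L'' := by
  obtain ⟨R, hR, ⟨g, hg, hgk⟩, h⟩ := h
  obtain ⟨R', hR', ⟨g', hg', hgk'⟩, h'⟩ := h'
  obtain ⟨G', hG', hmono, hle⟩ := exists_mono hg'
  refine ⟨fun y => R' (R y), (fptC_comp hR.toC hR'.toC hg hgk).toFpt,
    ⟨fun k => G' (g k), hG'.comp hg, fun x k => ?_⟩, fun x k => ?_⟩
  · exact (hgk' _ _).trans ((hle _).trans (hmono (hgk x k)))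
  · rw [h x k]
    exact h' _ _

theorem w2Hard_of {L : PProblem} (h : ∀ x k, (x, k) ∈ pDominatingSet ↔ redP (x, k) ∈ L) :
    W2Hard L := fun _ hL' =>
  FptReduces.trans_pc hL' pc_redP Computable.succ (fun _ _ h => Nat.succ_le_succ h) redP_snd_le h

theorem w2Hard_score : W2Hard scoreProblem := w2Hard_of mem_iff

theorem w2Hard_colours : W2Hard (scoreProblemColours 6) := w2Hard_of mem_iff_colours

theorem collapse {L : PProblem} (h : W2Hard L) (h1 : L ∈ W1) : W2 ⊆ W1 :=
  fun L' hL' => fptReduces_trans (h L' hL') h1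

end Pool.Agent.Q206.CK
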