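import Pool.Agent.Q206.CK.Bwd

/-!
# The two directions of the reduction
-/

namespace Pool.Agent.Q206.CK

open Relation

/-- The width of the rest. -/
def wid (n : ℕ) : ℕ := (2 * n + 3) * (n + 2)

/-- The length of the bars. -/
def bb (n N : ℕ) : ℕ := (2 * N + 1) * wid n + 1

/-- The board of the instance. -/
def board0 (n N : ℕ) (cov : ℕ → ℕ → Bool) : Board :=
  boardF (2 * N + 1) (2 * n + 3) (colr n) (len n (bb n N) cov)

section
variable {n b C : ℕ} {cov : ℕ → ℕ → Bool} {X : Set (ℕ × ℕ)}

theorem tiles_boardF (C M : ℕ) (col ℓ : ℕ → ℕ → ℕ) :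
    tiles (boardF C M col ℓ) = ∑ c ∈ Finset.range C, off (ℓ c) M := by
  unfold tiles boardF
  rw [List.map_map, Finset.sum_range, ← List.sum_ofFn]
  congr 1
  apply List.ext_getElem
  · simp
  · intro i h1 h2
    simp [length_colF]

/-- The layers of the sets in `D`. -/
def XD (C : ℕ) (D : Finset ℕ) : Set (ℕ × ℕ) := {x | x.1 < C ∧ ∃ j ∈ D, x.2 = 2 * j + 1}

theorem unif_XD (hC : 0 < C) (D : Finset ℕ) : Unif n C (XD C D) := by
  constructor
  · rintro c ⟨-, j, -, h⟩
    simp only at h
    omega
  · intro c hc i _ _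
    constructor
    · rintro ⟨-, j, hj, h⟩; exact ⟨hC, j, hj, h⟩
    · rintro ⟨-, j, hj, h⟩; exact ⟨hc, j, hj, h⟩

theorem click_XD (hC : 0 < C) {D : Finset ℕ} {j : ℕ} (hj : j < n) (hjD : j ∉ D) :
    Click (boardF C (2 * n + 3) (colr n) (cut (len n b cov) (XD C D)))
      (boardF C (2 * n + 3) (colr n) (cut (len n b cov) (XD C (insert j D)))) := by
  have hX := unif_XD (n := n) hC D
  have hne : ∀ c, (c, 2 * j + 1) ∉ XD C D := by
    rintro c ⟨-, j', hj', h⟩
    have : j = j' := by simp only at h; omega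
    exact hjD (this ▸ hj')
  have hev : ∀ l, (0, 2 * l + 2) ∉ XD C D := by
    rintro l ⟨-, j', hj', h⟩
    simp only at h
    omega
  have hp : Pres C (2 * n + 3) (cut (len n b cov) (XD C D)) (0, 2 * j + 1) :=
    pres_layer hC (by omega) (by omega) (hne 0)
  rw [click_iff]
  refine ⟨(0, 2 * j + 1), hp, Or.inl ?_, ?_⟩
  · show 2 ≤ cut (len n b cov) (XD C D) 0 (2 * j + 1)
    rw [cut_of_notMem (hne 0), len_layer 0 (by omega) (by omega)]
    omega
  · have e : XD C (insert j D) = XD C D ∪
        comp C (2 * n + 3) (colr n) (cut (len n b cov) (XD C D)) (0, 2 * j + 1) := by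
      ext y
      constructor
      · rintro ⟨h1, j', hj', h2⟩
        rw [Finset.mem_insert] at hj'
        rcases hj' with h3 | h3
        · right
          subst h3
          have := conn_layer (b := b) (cov := cov) hX (i := 2 * j' + 1) (by omega) (by omega)
            (hne 0) (c := 0) (c' := y.1) hC h1
          have e : y = (y.1, 2 * j' + 1) := Prod.ext rfl h2
          rw [e]
          exact this
        · exact Or.inl ⟨h1, j', h3, h2⟩
      · rintro (⟨h1, j', h2, h3⟩ | h)
        · exact ⟨h1, j', Finset.mem_insert_of_mem h2, h3⟩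
        · have h1 := (comp_pres hp h).1.1
          obtain ⟨h2, h3, h4⟩ := comp_run hX hp (by show 1 ≤ 2 * j + 1; omega)
            (by show 2 * j + 1 ≤ _; omega) h
          simp only at h3 h4
          refine ⟨h1, j, Finset.mem_insert_self _ _, ?_⟩
          by_contra hne'
          rcases lt_or_gt_of_ne hne' with h5 | h5
          · obtain ⟨l, hl⟩ : ∃ l, y.2 = 2 * l + 1 := ⟨y.2 / 2, by omega⟩
            have := h4 (2 * l + 2) (by omega) (by omega) (hev l) (Or.inr ⟨by omega, by omega⟩)
            omega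
          · have := h4 (2 * j + 2) (by omega) (by omega) (hev j) (Or.inl ⟨by omega, by omega⟩)
            omega
    rw [cut_cut, ← e, filter_board (unif_XD hC _)]

theorem clicks_succ {j : ℕ} : ∀ {B B' B'' : Board}, Clicks j B B' → Click B' B'' →
    Clicks (j + 1) B B'' := by
  induction j with
  | zero =>
    intro B B' B'' h1 h2
    have h1' : B = B' := h1
    subst h1'
    exact ⟨B'', h2, rfl⟩
  | succ j ih =>
    intro B B' B'' h1 h2
    obtain ⟨D, h3, h4⟩ := h1
    exact ⟨D, h3, ih h4 h2⟩

theorem clicks_XD (hC : 0 < C) (D : Finset ℕ) (hD : ∀ j ∈ D, j < n) :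
    Clicks D.card (boardF C (2 * n + 3) (colr n) (len n b cov))
      (boardF C (2 * n + 3) (colr n) (cut (len n b cov) (XD C D))) := by
  classical
  induction D using Finset.induction_on with
  | empty =>
    have e : cut (len n b cov) (XD C ∅) = len n b cov := by
      funext c i
      rw [cut_of_notMem]
      rintro ⟨-, j, hj, -⟩
      exact absurd hj (Finset.notMem_empty j)
    rw [e]
    rfl
  | insert j D hj ih =>
    rw [Finset.card_insert_of_notMem hj]
    exact clicks_succ (ih fun j hj => hD j (Finset.mem_insert_of_mem hj))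
      (click_XD hC (hD j (Finset.mem_insert_self _ _)) hj)

theorem len_bar_odd {c : ℕ} (hc : c % 2 = 1) : len n b cov c (2 * n + 2) = b := by
  unfold len
  rw [if_neg (by omega), if_neg (by omega), if_neg (by omega), if_pos hc]

theorem len_bar_even {c : ℕ} (hc : c % 2 = 0) : len n b cov c (2 * n + 2) = n + 2 := by
  unfold len
  rw [if_neg (by omega), if_neg (by omega), if_neg (by omega), if_neg (by omega)]

theorem len_filler_odd {c : ℕ} (hc : c % 2 = 1) :
    len n b cov c (2 * n + 1) = (n + 2) - deg n cov (c / 2 % n) := by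
  unfold len
  rw [if_neg (by omega), if_neg (by omega), if_pos rfl, if_pos hc]

theorem len_filler_even {c : ℕ} (hc : c % 2 = 0) : len n b cov c (2 * n + 1) = 0 := by
  unfold len
  rw [if_neg (by omega), if_neg (by omega), if_pos rfl, if_neg (by omega)]

/-- After the removal of a cover, all bars are joined. -/
theorem link_bars (hC : 0 < C) {D : Finset ℕ} (hD : ∀ j ∈ D, j < n) (hb : 0 < b)
    (hcov : ∀ c < C, c % 2 = 1 → ∃ j ∈ D, cov (c / 2 % n) j = true) {o e : ℕ} (ho : o < C)
    (he : e < C) (ho2 : o % 2 = 1) (he2 : e % 2 = 0) (hoe : o + 1 = e ∨ e + 1 = o) :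
    Link C (2 * n + 3) (colr n) (cut (len n b cov) (XD C D)) (o, 2 * n + 2) (e, 2 * n + 2) := by
  classical
  have hX := unif_XD (n := n) hC D
  have hnb : ∀ c i, 2 * n + 1 ≤ i → (c, i) ∉ XD C D := by
    rintro c i hi ⟨-, j', hj', h⟩
    have := hD j' hj'
    simp only at h
    omega
  have hev : ∀ c, (c, 2 * n + 2) ∉ XD C D := fun c => hnb c _ (by omega)
  have hfl : ∀ c, (c, 2 * n + 1) ∉ XD C D := fun c => hnb c _ (by omega)
  have e1 := off_eq (b := b) (cov := cov) hX ho he ho2 he2
  have e2 : off (cut (len n b cov) (XD C D) o) (2 * n + 1 + 1) =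
      off (cut (len n b cov) (XD C D) o) (2 * n + 1) + ((n + 2) - deg n cov (o / 2 % n)) := by
    rw [off_succ, cut_of_notMem (hfl o), len_filler_odd ho2]
  have e3 : off (cut (len n b cov) (XD C D) e) (2 * n + 1 + 1) =
      off (cut (len n b cov) (XD C D) e) (2 * n + 1) := by
    rw [off_succ, cut_of_notMem (hfl e), len_filler_even he2, add_zero]
  have e4 : off (cut (len n b cov) (XD C D) o) (2 * n + 1 + 1 + 1) =
      off (cut (len n b cov) (XD C D) o) (2 * n + 1 + 1) + b := by
    rw [off_succ, cut_of_notMem (hev o), len_bar_odd ho2]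
  have e5 : off (cut (len n b cov) (XD C D) e) (2 * n + 1 + 1 + 1) =
      off (cut (len n b cov) (XD C D) e) (2 * n + 1 + 1) + (n + 2) := by
    rw [off_succ, cut_of_notMem (hev e), len_bar_even he2]
  have h1 : ∑ j ∈ Finset.range n, (if (0, 2 * j + 1) ∉ XD C D ∧ cov (o / 2 % n) j = true
      then 1 else 0) < deg n cov (o / 2 % n) := by
    unfold deg
    obtain ⟨j0, hj0, hc0⟩ := hcov o ho ho2
    refine Finset.sum_lt_sum (fun j _ => ?_) ⟨j0, Finset.mem_range.2 (hD j0 hj0), ?_⟩
    · by_cases h : cov (o / 2 % n) j = true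
      · rw [if_pos h]; split_ifs <;> omega
      · rw [if_neg h, if_neg fun h' => h h'.2]
    · rw [if_pos hc0, if_neg]
      · omega
      · intro h
        exact h.1 ⟨hC, j0, hj0, rfl⟩
  have h2 := deg_le n cov (o / 2 % n)
  refine ⟨⟨ho, by show 2 * n + 2 < _; omega, ?_⟩, ⟨he, by show 2 * n + 2 < _; omega, ?_⟩, ?_,
    Or.inr ⟨hoe, ?_, ?_⟩⟩
  · show 0 < cut (len n b cov) (XD C D) o (2 * n + 2)
    rw [cut_of_notMem (hev o), len_bar_odd ho2]; exact hb
  · show 0 < cut (len n b cov) (XD C D) e (2 * n + 2)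
    rw [cut_of_notMem (hev e), len_bar_even he2]; omega
  · show colr n o (2 * n + 2) = colr n e (2 * n + 2)
    rw [colr_eq_three.2 (by omega), colr_eq_three.2 (by omega)]
  · show off (cut (len n b cov) (XD C D) o) (2 * n + 1 + 1) <
      off (cut (len n b cov) (XD C D) e) (2 * n + 1 + 1 + 1)
    omega
  · show off (cut (len n b cov) (XD C D) e) (2 * n + 1 + 1) <
      off (cut (len n b cov) (XD C D) o) (2 * n + 1 + 1 + 1)
    omega

theorem bars_mem (hC : 0 < C) {D : Finset ℕ} (hD : ∀ j ∈ D, j < n) (hb : 0 < b)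
    (hcov : ∀ c < C, c % 2 = 1 → ∃ j ∈ D, cov (c / 2 % n) j = true) :
    ∀ c < C, (c, 2 * n + 2) ∈
      comp C (2 * n + 3) (colr n) (cut (len n b cov) (XD C D)) (0, 2 * n + 2) := by
  intro c
  induction c with
  | zero => intro _; exact ReflTransGen.refl
  | succ c ih =>
    intro hc
    have h1 : ReflTransGen _ (0, 2 * n + 2) (c, 2 * n + 2) := ih (by omega)
    refine ReflTransGen.tail h1 ?_
    rcases Nat.mod_two_eq_zero_or_one c with h | h
    · exact (link_bars hC hD hb hcov (o := c + 1) (e := c) hc (by omega) (by omega) h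
        (Or.inr rfl)).symm
    · exact link_bars hC hD hb hcov (o := c) (e := c + 1) (by omega) hc h (by omega) (Or.inl rfl)

theorem sum_odd_const (N b : ℕ) :
    ∑ c ∈ Finset.range (2 * N + 1), (if c % 2 = 1 then b else 0) = N * b := by
  rw [sum_odd (fun c => if c % 2 = 1 then b else 0) N fun j _ => if_neg (by omega)]
  rw [Finset.sum_congr rfl fun j _ => if_pos (show (2 * j + 1) % 2 = 1 by omega)]
  simp

theorem off_sub_le {X : Set (ℕ × ℕ)} {c i M m : ℕ} {ℓ : ℕ → ℕ → ℕ} (hi : i < M)
    (h : (c, i) ∈ X) (hm : m ≤ ℓ c i) : off (cut ℓ X c) M + m ≤ off (ℓ c) M := by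
  unfold off
  have h1 : ∑ j ∈ Finset.range M, cut ℓ X c j + ∑ j ∈ Finset.range M, (if j = i then m else 0) ≤
      ∑ j ∈ Finset.range M, ℓ c j := by
    rw [← Finset.sum_add_distrib]
    refine Finset.sum_le_sum fun j _ => ?_
    by_cases hj : j = i
    · subst hj
      rw [cut_of_mem h, if_pos rfl]; omega
    · rw [if_neg hj, add_zero]
      by_cases h' : (c, j) ∈ X
      · rw [cut_of_mem h']; exact Nat.zero_le _
      · rw [cut_of_notMem h']
  rw [Finset.sum_ite_eq' (Finset.range M) i, if_pos (Finset.mem_range.2 hi)] at h1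
  exact h1

/-- **The forward direction.** -/
theorem forward {N : ℕ} {D : Finset ℕ} (hD : ∀ j ∈ D, j < n)
    (hcov : ∀ u < n, ∃ j ∈ D, cov u j = true) (hN : 0 < N → 0 < n) :
    ∃ B', Clicks (D.card + 1) (board0 n N cov) B' ∧
      N * bb n N < tiles (board0 n N cov) - tiles B' := by
  have hC : 0 < 2 * N + 1 := by omega
  have hb : 0 < bb n N := by unfold bb; omega
  have hcov' : ∀ c < 2 * N + 1, c % 2 = 1 → ∃ j ∈ D, cov (c / 2 % n) j = true := by
    intro c hc hc2
    exact hcov _ (Nat.mod_lt _ (hN (by omega)))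
  have hbars := bars_mem hC hD hb hcov'
  have hne : (0, 2 * n + 2) ∉ XD (2 * N + 1) D := by
    rintro ⟨-, j, hj, h⟩
    have := hD j hj
    simp only at h
    omega
  have hp : Pres (2 * N + 1) (2 * n + 3) (cut (len n (bb n N) cov) (XD (2 * N + 1) D))
      (0, 2 * n + 2) := by
    refine ⟨hC, by show 2 * n + 2 < _; omega, ?_⟩
    show 0 < cut (len n (bb n N) cov) (XD (2 * N + 1) D) 0 (2 * n + 2)
    rw [cut_of_notMem hne, len_bar_even rfl]; omega
  set G := comp (2 * N + 1) (2 * n + 3) (colr n) (cut (len n (bb n N) cov) (XD (2 * N + 1) D))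
    (0, 2 * n + 2) with hG
  have hU : Unif n (2 * N + 1) (XD (2 * N + 1) D ∪ G) := by
    refine unif_union (unif_XD hC D) fun y hy => ?_
    have h1 := (comp_pres hp hy).2
    have h2 : colr n 0 (2 * n + 2) = 3 := colr_eq_three.2 (by omega)
    have h3 : colr n y.1 y.2 = 3 := h1.symm.trans h2
    have := colr_eq_three.1 h3
    omega
  refine ⟨boardF (2 * N + 1) (2 * n + 3) (colr n) (cut (len n (bb n N) cov)
    (XD (2 * N + 1) D ∪ G)), ?_, ?_⟩
  · refine clicks_succ (clicks_XD hC D hD) (click_iff.2 ⟨(0, 2 * n + 2), hp, Or.inl ?_, ?_⟩)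
    · show 2 ≤ cut (len n (bb n N) cov) (XD (2 * N + 1) D) 0 (2 * n + 2)
      rw [cut_of_notMem hne, len_bar_even rfl]; omega
    · rw [cut_cut, filter_board hU]
  · unfold board0
    rw [tiles_boardF, tiles_boardF]
    have h1 : ∀ c ∈ Finset.range (2 * N + 1),
        off (cut (len n (bb n N) cov) (XD (2 * N + 1) D ∪ G) c) (2 * n + 3) +
          (if c % 2 = 1 then bb n N else 0) ≤ off (len n (bb n N) cov c) (2 * n + 3) := by
      intro c hc
      refine off_sub_le (i := 2 * n + 2) (by omega) (Or.inr (hbars c (Finset.mem_range.1 hc))) ?_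
      split_ifs with h
      · rw [len_bar_odd h]
      · exact Nat.zero_le _
    have h2 : off (cut (len n (bb n N) cov) (XD (2 * N + 1) D ∪ G) 0) (2 * n + 3) +
          (if 0 % 2 = 1 then bb n N else 0) < off (len n (bb n N) cov 0) (2 * n + 3) := by
      have h3 := off_sub_le (X := XD (2 * N + 1) D ∪ G) (m := 1) (i := 2 * n + 2)
        (M := 2 * n + 3) (c := 0) (ℓ := len n (bb n N) cov) (by omega) (Or.inr (hbars 0 hC)) (by rw [len_bar_even rfl]; omega)
      simp only [Nat.zero_mod, zero_ne_one, if_false]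
      omega
    have h3 := Finset.sum_lt_sum h1 ⟨0, Finset.mem_range.2 hC, h2⟩
    rw [Finset.sum_add_distrib, sum_odd_const] at h3
    omega

theorem tiles_le (n N : ℕ) (cov : ℕ → ℕ → Bool) :
    tiles (board0 n N cov) ≤ (2 * N + 1) * wid n + N * bb n N := by
  unfold board0
  rw [tiles_boardF]
  have h1 : ∀ c ∈ Finset.range (2 * N + 1), off (len n (bb n N) cov c) (2 * n + 3) ≤
      wid n + (if c % 2 = 1 then bb n N else 0) := by
    intro c _
    rw [show 2 * n + 3 = 2 * n + 2 + 1 from rfl, off_succ]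
    have h2 : off (len n (bb n N) cov c) (2 * n + 2) ≤ (2 * n + 2) * (n + 2) := by
      unfold off
      refine (Finset.sum_le_card_nsmul _ _ (n + 2) fun i hi => ?_).trans (by simp)
      rw [Finset.mem_range] at hi
      unfold len
      split_ifs <;> omega
    have h3 : len n (bb n N) cov c (2 * n + 2) ≤ (n + 2) + (if c % 2 = 1 then bb n N else 0) := by
      rcases Nat.mod_two_eq_zero_or_one c with h | h
      · rw [len_bar_even h]; omega
      · rw [len_bar_odd h, if_pos h]; omega
    have h4 : wid n = (2 * n + 2) * (n + 2) + (n + 2) := by unfold wid; ring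
    omega
  refine (Finset.sum_le_sum h1).trans ?_
  rw [Finset.sum_add_distrib, sum_odd_const]
  simp

/-- **The backward direction.** -/
theorem backward {N k j : ℕ} (hn : 0 < n) (hN : N = n * (k + 2)) (hj : j ≤ k + 1) {B' : Board}
    (h : Clicks j (board0 n N cov) B') (hs : N * bb n N ≤ tiles (board0 n N cov) - tiles B') :
    ∃ D : Finset ℕ, (∀ i ∈ D, i < n) ∧ D.card ≤ k ∧ ∀ u < n, ∃ i ∈ D, cov u i = true := by
  classical
  have hNpos : 0 < N := by rw [hN]; positivity
  have e : board0 n N cov = boardF (2 * N + 1) (2 * n + 3) (colr n)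
      (cut (len n (bb n N) cov) ∅) := by
    unfold board0
    congr 1
    funext c i
    rw [cut_of_notMem (Set.notMem_empty _)]
  rw [e] at h
  obtain ⟨X, r, A, Bad, hB', hI⟩ := clicks_inv j ∅ (inv_init n (2 * N + 1) cov) h
  have hall : ∀ c < 2 * N + 1, c % 2 = 1 → (c, 2 * n + 2) ∈ X := by
    intro c hc hc2
    by_contra hcon
    have h1 : bb n N ≤ tiles B' := by
      rw [hB', tiles_boardF]
      refine le_trans ?_ (Finset.single_le_sum (fun _ _ => Nat.zero_le _) (Finset.mem_range.2 hc))
      rw [show 2 * n + 3 = 2 * n + 2 + 1 from rfl, off_succ, cut_of_notMem hcon, len_bar_odd hc2]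
      omega
    have h2 := tiles_le n N cov
    have h3 : (2 * N + 1) * wid n + 1 = bb n N := rfl
    have h4 : bb n N ≤ N * bb n N := Nat.le_mul_of_pos_left _ hNpos
    omega
  have hr : r ≤ k := by
    have := hI.bar 1 (by omega) (hall 1 (by omega) rfl)
    omega
  have hbad := hI.bad
  refine ⟨(Finset.range n).filter fun i => (0, 2 * i + 1) ∈ X, ?_, ?_, ?_⟩
  · intro i hi
    exact Finset.mem_range.1 (Finset.mem_filter.1 hi).1
  · have h1 : A ⊆ (Finset.range n).filter fun i => ¬ (0, 2 * i + 1) ∈ X := by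
      intro i hi
      exact Finset.mem_filter.2 ⟨Finset.mem_range.2 (hI.mem i hi).1, (hI.mem i hi).2⟩
    have h2 := Finset.card_le_card h1
    have h3 := Finset.card_filter_add_card_filter_not (s := Finset.range n)
      (fun i => (0, 2 * i + 1) ∈ X)
    rw [Finset.card_range] at h3
    have := hI.card
    omega
  · intro u hu
    -- a column of `u` that is not bad
    have h1 : ∃ q ∈ Finset.range (k + 2), 2 * (n * q + u) + 1 ∉ Bad := by
      by_contra hcon
      push Not at hcon
      have h2 := Finset.card_le_card_of_injOn (s := Finset.range (k + 2)) (t := Bad)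
        (fun q => 2 * (n * q + u) + 1) (fun q hq => hcon q hq) (by
          intro q _ q' _ hqq
          simp only at hqq
          have : n * q = n * q' := by omega
          exact Nat.eq_of_mul_eq_mul_left hn this)
      rw [Finset.card_range] at h2
      omega
    obtain ⟨q, hq, hq2⟩ := h1
    rw [Finset.mem_range] at hq
    have h2 : 2 * (n * q + u) + 1 < 2 * N + 1 := by
      have : n * (q + 1) ≤ n * (k + 2) := Nat.mul_le_mul_left _ hq
      rw [Nat.mul_add, mul_one] at this
      rw [hN]
      omega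
    obtain ⟨i, hi, h3, h4⟩ := (hI.good _ h2 (by omega) hq2).2 (hall _ h2 (by omega))
    have h5 : (2 * (n * q + u) + 1) / 2 % n = u := by
      rw [show (2 * (n * q + u) + 1) / 2 = n * q + u by omega, Nat.mul_add_mod, Nat.mod_eq_of_lt hu]
    rw [h5] at h3
    exact ⟨i, Finset.mem_filter.2 ⟨Finset.mem_range.2 hi, h4⟩, h3⟩

end

end Pool.Agent.Q206.CK
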