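import Pool.Agent.Q206.CK.Defs

/-!
# Boards made of pieces, and the effect of a click on the pieces
-/

namespace Pool.Agent.Q206.CK

open Relation

/-- The column made of `M` pieces, piece `i` having `ℓ i` tiles of colour `col i`. -/
def colF (M : ℕ) (col ℓ : ℕ → ℕ) : List ℕ :=
  (List.range M).flatMap fun i => List.replicate (ℓ i) (col i)

/-- The board with `C` columns made of `M` pieces. -/
def boardF (C M : ℕ) (col ℓ : ℕ → ℕ → ℕ) : Board :=
  (List.range C).map fun c => colF M (col c) (ℓ c)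

/-- The height of the bottom of piece `i`. -/
def off (ℓ : ℕ → ℕ) (i : ℕ) : ℕ := ∑ j ∈ Finset.range i, ℓ j

theorem off_succ (ℓ : ℕ → ℕ) (i : ℕ) : off ℓ (i + 1) = off ℓ i + ℓ i := Finset.sum_range_succ _ _

theorem off_zero (ℓ : ℕ → ℕ) : off ℓ 0 = 0 := rfl

theorem off_mono (ℓ : ℕ → ℕ) : Monotone (off ℓ) := fun _ _ h =>
  Finset.sum_le_sum_of_subset (Finset.range_mono h)

theorem colF_succ (M : ℕ) (col ℓ : ℕ → ℕ) :
    colF (M + 1) col ℓ = colF M col ℓ ++ List.replicate (ℓ M) (col M) := by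
  simp [colF, List.range_succ, List.flatMap_append]

theorem length_colF (M : ℕ) (col ℓ : ℕ → ℕ) : (colF M col ℓ).length = off ℓ M := by
  induction M with
  | zero => rfl
  | succ M ih => rw [colF_succ, List.length_append, ih, List.length_replicate, off_succ]

theorem exists_piece (ℓ : ℕ → ℕ) {M h : ℕ} (hh : h < off ℓ M) :
    ∃ i < M, off ℓ i ≤ h ∧ h < off ℓ (i + 1) := by
  induction M with
  | zero => simp [off] at hh
  | succ M ih =>
    rcases lt_or_ge h (off ℓ M) with h1 | h1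
    · obtain ⟨i, hi, h2⟩ := ih h1
      exact ⟨i, by omega, h2⟩
    · exact ⟨M, by omega, h1, hh⟩

theorem piece_unique {ℓ : ℕ → ℕ} {i j h : ℕ} (h1 : off ℓ i ≤ h) (h2 : h < off ℓ (i + 1))
    (h3 : off ℓ j ≤ h) (h4 : h < off ℓ (j + 1)) : i = j := by
  rcases lt_trichotomy i j with h5 | h5 | h5
  · have := off_mono ℓ (show i + 1 ≤ j from h5); omega
  · exact h5
  · have := off_mono ℓ (show j + 1 ≤ i from h5); omega

theorem getElem_colF (M : ℕ) (col ℓ : ℕ → ℕ) (h x : ℕ) :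
    (colF M col ℓ)[h]? = some x ↔ ∃ i < M, off ℓ i ≤ h ∧ h < off ℓ (i + 1) ∧ col i = x := by
  induction M with
  | zero => simp [colF]
  | succ M ih =>
    rw [colF_succ]
    rcases lt_or_ge h (off ℓ M) with h1 | h1
    · rw [List.getElem?_append_left (by rw [length_colF]; exact h1), ih]
      constructor
      · rintro ⟨i, hi, h2⟩
        exact ⟨i, by omega, h2⟩
      · rintro ⟨i, hi, h2, h3, h4⟩
        refine ⟨i, ?_, h2, h3, h4⟩
        rcases Nat.lt_succ_iff_lt_or_eq.1 hi with h5 | h5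
        · exact h5
        · subst h5; omega
    · rw [List.getElem?_append_right (by rw [length_colF]; exact h1), length_colF]
      constructor
      · intro h2
        obtain ⟨h3, h4⟩ := List.getElem?_eq_some_iff.1 h2
        rw [List.length_replicate] at h3
        rw [List.getElem_replicate] at h4
        exact ⟨M, by omega, h1, by rw [off_succ]; omega, h4⟩
      · rintro ⟨i, hi, h2, h3, h4⟩
        rcases Nat.lt_succ_iff_lt_or_eq.1 hi with h5 | h5
        · have := off_mono ℓ (show i + 1 ≤ M from h5); omega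
        · subst h5
          rw [off_succ] at h3
          rw [List.getElem?_eq_some_iff]
          refine ⟨by rw [List.length_replicate]; omega, ?_⟩
          rw [List.getElem_replicate]; exact h4

theorem filter_colF (M : ℕ) (col ℓ : ℕ → ℕ) (P : ℕ → Bool) (Q : ℕ → Bool)
    (h : ∀ i < M, ∀ t, off ℓ i ≤ t → t < off ℓ (i + 1) → P t = Q i) :
    ((colF M col ℓ).zipIdx.filter fun x => P x.2).map Prod.fst =
      colF M col fun i => if Q i = true then ℓ i else 0 := by
  induction M with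
  | zero => rfl
  | succ M ih =>
    rw [colF_succ, colF_succ, List.zipIdx_append, List.filter_append, List.map_append,
      ih fun i hi => h i (by omega)]
    congr 1
    rw [length_colF]
    have h1 : ∀ x ∈ (List.replicate (ℓ M) (col M)).zipIdx (0 + off ℓ M), P x.2 = Q M := by
      intro x hx
      have h2 := List.mem_zipIdx hx
      rw [List.length_replicate] at h2
      exact h M (by omega) x.2 (by omega) (by rw [off_succ]; omega)
    cases hQ : Q M with
    | false =>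
      have h2 : ((List.replicate (ℓ M) (col M)).zipIdx (0 + off ℓ M)).filter (fun x => P x.2) = [] := by
        rw [List.filter_eq_nil_iff]
        intro x hx
        rw [h1 x hx, hQ]
        simp
      rw [h2]
      simp
    | true =>
      have h2 : ((List.replicate (ℓ M) (col M)).zipIdx (0 + off ℓ M)).filter (fun x => P x.2) =
          (List.replicate (ℓ M) (col M)).zipIdx (0 + off ℓ M) := by
        rw [List.filter_eq_self]
        intro x hx
        rw [h1 x hx, hQ]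
      rw [h2, List.zipIdx_map_fst]
      simp

/-! ### pieces -/

section
variable (C M : ℕ) (col ℓ : ℕ → ℕ → ℕ)

/-- Two pieces touch each other. -/
def Touch (x y : ℕ × ℕ) : Prop :=
  (x.1 = y.1 ∧ (off (ℓ x.1) (x.2 + 1) = off (ℓ x.1) y.2 ∨
    off (ℓ x.1) (y.2 + 1) = off (ℓ x.1) x.2)) ∨
  ((x.1 + 1 = y.1 ∨ y.1 + 1 = x.1) ∧ off (ℓ x.1) x.2 < off (ℓ y.1) (y.2 + 1) ∧
    off (ℓ y.1) y.2 < off (ℓ x.1) (x.2 + 1))

/-- The piece `x` is present. -/
def Pres (x : ℕ × ℕ) : Prop := x.1 < C ∧ x.2 < M ∧ 0 < ℓ x.1 x.2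

/-- Two pieces of the same colour touch each other. -/
def Link (x y : ℕ × ℕ) : Prop :=
  Pres C M ℓ x ∧ Pres C M ℓ y ∧ col x.1 x.2 = col y.1 y.2 ∧ Touch ℓ x y

/-- The pieces joined to `x`. -/
def comp (x : ℕ × ℕ) : Set (ℕ × ℕ) := {y | ReflTransGen (Link C M col ℓ) x y}

open Classical in
/-- The lengths after the removal of the pieces in `G`. -/
noncomputable def cut (G : Set (ℕ × ℕ)) (c i : ℕ) : ℕ := if (c, i) ∈ G then 0 else ℓ c i

/-- The position `p` lies in the piece `x`. -/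
def In (p x : ℕ × ℕ) : Prop :=
  p.1 = x.1 ∧ x.1 < C ∧ x.2 < M ∧ off (ℓ x.1) x.2 ≤ p.2 ∧ p.2 < off (ℓ x.1) (x.2 + 1)

variable {C M col ℓ}

theorem Touch.symm {x y : ℕ × ℕ} (h : Touch ℓ x y) : Touch ℓ y x := by
  rcases h with ⟨h1, h2⟩ | ⟨h1, h2, h3⟩
  · refine Or.inl ⟨h1.symm, ?_⟩
    rw [← h1]; exact h2.symm
  · exact Or.inr ⟨h1.symm, h3, h2⟩

theorem Link.symm {x y : ℕ × ℕ} (h : Link C M col ℓ x y) : Link C M col ℓ y x :=
  ⟨h.2.1, h.1, h.2.2.1.symm, h.2.2.2.symm⟩

theorem In.pres {p x : ℕ × ℕ} (h : In C M ℓ p x) : Pres C M ℓ x := by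
  obtain ⟨h1, h2, h3, h4, h5⟩ := h
  rw [off_succ] at h5
  exact ⟨h2, h3, by omega⟩

theorem In.unique {p x y : ℕ × ℕ} (h : In C M ℓ p x) (h' : In C M ℓ p y) : x = y := by
  obtain ⟨h1, h2, h3, h4, h5⟩ := h
  obtain ⟨h1', h2', h3', h4', h5'⟩ := h'
  have e : x.1 = y.1 := h1.symm.trans h1'
  rw [e] at h4 h5
  exact Prod.ext e (piece_unique h4 h5 h4' h5')

theorem tile_iff (p : ℕ × ℕ) (a : ℕ) :
    tile (boardF C M col ℓ) p = some a ↔ ∃ x, In C M ℓ p x ∧ col x.1 x.2 = a := by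
  unfold tile boardF
  by_cases hp : p.1 < C
  · rw [List.getElem?_map, List.getElem?_range hp]
    simp only [Option.map_some, Option.bind_some]
    rw [getElem_colF]
    constructor
    · rintro ⟨i, h1, h2, h3, h4⟩
      exact ⟨(p.1, i), ⟨rfl, hp, h1, h2, h3⟩, h4⟩
    · rintro ⟨x, ⟨h1, h2, h3, h4, h5⟩, h6⟩
      rw [h1]
      exact ⟨x.2, h3, h4, h5, h6⟩
  · rw [List.getElem?_eq_none (by rw [List.length_map, List.length_range]; omega)]
    simp only [Option.bind_none]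
    constructor
    · intro h; simp at h
    · rintro ⟨x, ⟨h1, h2, -⟩, -⟩
      omega

theorem In.tile {p x : ℕ × ℕ} (h : In C M ℓ p x) :
    tile (boardF C M col ℓ) p = some (col x.1 x.2) := (tile_iff p _).2 ⟨x, h, rfl⟩

theorem Pres.exists_in {x : ℕ × ℕ} (h : Pres C M ℓ x) : In C M ℓ (x.1, off (ℓ x.1) x.2) x :=
  ⟨rfl, h.1, h.2.1, le_rfl, by have := h.2.2; rw [off_succ]; show off (ℓ x.1) x.2 < _; omega⟩

/-- A step between tiles stays in the piece or follows a link. -/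
theorem same_cases {p q x : ℕ × ℕ} (h : Same (boardF C M col ℓ) p q) (hx : In C M ℓ p x) :
    ∃ y, In C M ℓ q y ∧ (x = y ∨ Link C M col ℓ x y) := by
  obtain ⟨h1, c, h2, h3⟩ := h
  obtain ⟨x', hx', hc⟩ := (tile_iff _ _).1 h2
  obtain ⟨y, hy, hc'⟩ := (tile_iff _ _).1 h3
  have e := hx.unique hx'
  subst e
  refine ⟨y, hy, ?_⟩
  by_cases hxy : x = y
  · exact Or.inl hxy
  refine Or.inr ⟨hx.pres, hy.pres, hc.trans hc'.symm, ?_⟩
  obtain ⟨a1, a2, a3, a4, a5⟩ := hx
  obtain ⟨b1, b2, b3, b4, b5⟩ := hy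
  rcases h1 with ⟨h1, h4⟩ | ⟨h1, h4⟩
  · left
    have e : x.1 = y.1 := by omega
    refine ⟨e, ?_⟩
    rw [← e] at b4 b5
    have hne : x.2 ≠ y.2 := fun h => hxy (Prod.ext e h)
    rcases h4 with h4 | h4
    · left
      rcases lt_or_gt_of_ne hne with h5 | h5
      · have := off_mono (ℓ x.1) (show x.2 + 1 ≤ y.2 from h5)
        omega
      · have := off_mono (ℓ x.1) (show y.2 + 1 ≤ x.2 from h5)
        omega
    · right
      rcases lt_or_gt_of_ne hne with h5 | h5
      · have := off_mono (ℓ x.1) (show x.2 + 1 ≤ y.2 from h5)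
        omega
      · have := off_mono (ℓ x.1) (show y.2 + 1 ≤ x.2 from h5)
        omega
  · right
    refine ⟨by omega, by omega, by omega⟩

theorem In.conn {p q x : ℕ × ℕ} (hp : In C M ℓ p x) (hq : In C M ℓ q x) :
    ReflTransGen (Same (boardF C M col ℓ)) p q := by
  have key : ∀ d : ℕ, ∀ p q : ℕ × ℕ, In C M ℓ p x → In C M ℓ q x → p.2 + d = q.2 →
      ReflTransGen (Same (boardF C M col ℓ)) p q ∧ ReflTransGen (Same (boardF C M col ℓ)) q p := by
    intro d
    induction d with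
    | zero =>
      intro p q hp hq h
      have : p = q := Prod.ext (hp.1.trans hq.1.symm) (by omega)
      subst this
      exact ⟨ReflTransGen.refl, ReflTransGen.refl⟩
    | succ d ih =>
      intro p q hp hq h
      have h1 : In C M ℓ (p.1, p.2 + 1) x := by
        obtain ⟨a1, a2, a3, a4, a5⟩ := hp
        obtain ⟨b1, b2, b3, b4, b5⟩ := hq
        refine ⟨a1, a2, a3, ?_, ?_⟩
        · show off (ℓ x.1) x.2 ≤ p.2 + 1; omega
        · show p.2 + 1 < _; omega
      obtain ⟨h2, h3⟩ := ih (p.1, p.2 + 1) q h1 hq (by show p.2 + 1 + d = q.2; omega)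
      have h4 : Same (boardF C M col ℓ) p (p.1, p.2 + 1) :=
        ⟨Or.inl ⟨rfl, Or.inl rfl⟩, _, hp.tile, h1.tile⟩
      have h5 : Same (boardF C M col ℓ) (p.1, p.2 + 1) p :=
        ⟨Or.inl ⟨rfl, Or.inr rfl⟩, _, h1.tile, hp.tile⟩
      exact ⟨ReflTransGen.head h4 h2, h3.tail h5⟩
  rcases le_total p.2 q.2 with h | h
  · exact (key (q.2 - p.2) p q hp hq (by omega)).1
  · exact (key (p.2 - q.2) q p hq hp (by omega)).2

theorem Link.same {x y : ℕ × ℕ} (h : Link C M col ℓ x y) :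
    ∃ p q, In C M ℓ p x ∧ In C M ℓ q y ∧ Same (boardF C M col ℓ) p q := by
  obtain ⟨⟨hx1, hx2, hx3⟩, ⟨hy1, hy2, hy3⟩, hc, ht⟩ := h
  have hox := off_succ (ℓ x.1) x.2
  have hoy := off_succ (ℓ y.1) y.2
  rcases ht with ⟨h1, h2 | h2⟩ | ⟨h1, h2, h3⟩
  · rw [h1] at h2 hox hx3
    have ip : In C M ℓ (x.1, off (ℓ x.1) (x.2 + 1) - 1) x :=
      ⟨rfl, hx1, hx2, by rw [h1]; show _ ≤ _ - 1; omega, by rw [h1]; show _ - 1 < _; omega⟩
    have iq : In C M ℓ (y.1, off (ℓ y.1) y.2) y :=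
      ⟨rfl, hy1, hy2, le_rfl, by show off (ℓ y.1) y.2 < _; omega⟩
    refine ⟨_, _, ip, iq, ?_, _, ip.tile, by rw [hc]; exact iq.tile⟩
    refine Or.inl ⟨h1, Or.inl ?_⟩
    show off (ℓ x.1) (x.2 + 1) - 1 + 1 = off (ℓ y.1) y.2
    rw [h1]; omega
  · rw [h1] at h2 hox hx3
    have ip : In C M ℓ (x.1, off (ℓ x.1) x.2) x :=
      ⟨rfl, hx1, hx2, le_rfl, by rw [h1]; show off (ℓ y.1) x.2 < _; omega⟩
    have iq : In C M ℓ (y.1, off (ℓ y.1) (y.2 + 1) - 1) y :=
      ⟨rfl, hy1, hy2, by show _ ≤ _ - 1; omega, by show _ - 1 < _; omega⟩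
    refine ⟨_, _, ip, iq, ?_, _, ip.tile, by rw [hc]; exact iq.tile⟩
    refine Or.inl ⟨h1, Or.inr ?_⟩
    show off (ℓ y.1) (y.2 + 1) - 1 + 1 = off (ℓ x.1) x.2
    rw [h1]; omega
  · have ip : In C M ℓ (x.1, max (off (ℓ x.1) x.2) (off (ℓ y.1) y.2)) x :=
      ⟨rfl, hx1, hx2, le_max_left _ _, max_lt (by omega) h3⟩
    have iq : In C M ℓ (y.1, max (off (ℓ x.1) x.2) (off (ℓ y.1) y.2)) y :=
      ⟨rfl, hy1, hy2, le_max_right _ _, max_lt h2 (by omega)⟩
    exact ⟨_, _, ip, iq, Or.inr ⟨rfl, h1⟩, _, ip.tile, by rw [hc]; exact iq.tile⟩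

theorem mem_group_iff {p q x y : ℕ × ℕ} (hp : In C M ℓ p x) (hq : In C M ℓ q y) :
    q ∈ group (boardF C M col ℓ) p ↔ y ∈ comp C M col ℓ x := by
  constructor
  · intro h
    have key : ∀ q, ReflTransGen (Same (boardF C M col ℓ)) p q →
        ∃ y, In C M ℓ q y ∧ ReflTransGen (Link C M col ℓ) x y := by
      intro q h
      induction h with
      | refl => exact ⟨x, hp, ReflTransGen.refl⟩
      | tail _ h2 ih =>
        obtain ⟨y, hy, hxy⟩ := ih
        obtain ⟨z, hz, h3 | h3⟩ := same_cases h2 hy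
        · subst h3; exact ⟨y, hz, hxy⟩
        · exact ⟨z, hz, hxy.tail h3⟩
    obtain ⟨y', hy', h2⟩ := key q h
    have := hq.unique hy'
    subst this
    exact h2
  · intro h
    have key : ∀ y, ReflTransGen (Link C M col ℓ) x y → ∀ q, In C M ℓ q y →
        ReflTransGen (Same (boardF C M col ℓ)) p q := by
      intro y h
      induction h with
      | refl => intro q hq; exact hp.conn hq
      | tail _ h2 ih =>
        intro q hq
        obtain ⟨a, b, ha, hb, hab⟩ := h2.same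
        exact ((ih a ha).tail hab).trans (hb.conn hq)
    exact key y h q hq

theorem mapIdx_range {α β : Type} (f : ℕ → α → β) (g : ℕ → α) (n : ℕ) :
    ((List.range n).map g).mapIdx f = (List.range n).map fun c => f c (g c) := by
  apply List.ext_getElem
  · simp
  · intro i h1 h2
    simp

theorem remove_eq {p x : ℕ × ℕ} (hp : In C M ℓ p x) :
    remove (boardF C M col ℓ) (group (boardF C M col ℓ) p) =
      (boardF C M col (cut ℓ (comp C M col ℓ x))).filter fun C => decide (C ≠ []) := by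
  classical
  unfold remove
  congr 1
  rw [boardF, mapIdx_range]
  refine List.map_congr_left fun c hc => ?_
  rw [List.mem_range] at hc
  have h1 := filter_colF M (col c) (ℓ c)
    (fun t => decide ((c, t) ∉ group (boardF C M col ℓ) p))
    (fun i => decide ((c, i) ∉ comp C M col ℓ x)) ?_
  · refine Eq.trans ?_ (h1.trans ?_)
    · rw [boardF]
    · congr 1
      funext i
      unfold cut
      by_cases h : (c, i) ∈ comp C M col ℓ x <;> simp [h]
  · intro i hi t h2 h3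
    have h4 : In C M ℓ (c, t) (c, i) := ⟨rfl, hc, hi, h2, h3⟩
    rw [decide_eq_decide, mem_group_iff hp h4]

/-- **The effect of a click on the pieces.** -/
theorem click_iff {B' : Board} : Click (boardF C M col ℓ) B' ↔
    ∃ x, Pres C M ℓ x ∧ (2 ≤ ℓ x.1 x.2 ∨ ∃ y, Link C M col ℓ x y) ∧
      B' = (boardF C M col (cut ℓ (comp C M col ℓ x))).filter fun C => decide (C ≠ []) := by
  constructor
  · rintro ⟨p, q, h, rfl⟩
    obtain ⟨a, ha, hb⟩ := h.2
    obtain ⟨x, hx, hxa⟩ := (tile_iff _ _).1 ha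
    obtain ⟨y, hy, h1⟩ := same_cases h hx
    refine ⟨x, hx.pres, ?_, remove_eq hx⟩
    rcases h1 with h1 | h1
    · subst h1
      left
      obtain ⟨a1, a2, a3, a4, a5⟩ := hx
      obtain ⟨b1, b2, b3, b4, b5⟩ := hy
      rw [off_succ] at a5 b5
      rcases h.1 with ⟨h5, h6⟩ | ⟨h5, h6⟩ <;> omega
    · exact Or.inr ⟨y, h1⟩
  · rintro ⟨x, hx, h1, rfl⟩
    rcases h1 with h1 | ⟨y, h1⟩
    · have hp := hx.exists_in
      have hq : In C M ℓ (x.1, off (ℓ x.1) x.2 + 1) x :=
        ⟨rfl, hx.1, hx.2.1, by show _ ≤ _ + 1; omega, by rw [off_succ]; show _ + 1 < _; omega⟩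
      exact ⟨(x.1, off (ℓ x.1) x.2), (x.1, off (ℓ x.1) x.2 + 1),
        ⟨Or.inl ⟨rfl, Or.inl rfl⟩, _, hp.tile, hq.tile⟩, (remove_eq hp).symm⟩
    · obtain ⟨p, q, hp, hq, hpq⟩ := h1.same
      exact ⟨p, q, hpq, (remove_eq hp).symm⟩

end

end Pool.Agent.Q206.CK
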