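import Pool.Agent.Q206.CK.Grp

/-!
# The instance, and the touching pieces in it
-/

namespace Pool.Agent.Q206.CK

open Relation

/-- The colours of the pieces: `4`, `5` at the bottom, layers of the colours `0` and `1`, fillers
of colour `2` and bars of colour `3`. -/
def colr (n c i : ℕ) : ℕ :=
  if i = 0 then 4 + c % 2 else if i ≤ 2 * n then (if i % 2 = 1 then 0 else 1) else
    if i = 2 * n + 1 then 2 else 3

/-- The number of sets containing `u`. -/
def deg (n : ℕ) (cov : ℕ → ℕ → Bool) (u : ℕ) : ℕ := ∑ j ∈ Finset.range n, if cov u j = true then 1 else 0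

/-- The lengths of the pieces. -/
def len (n b : ℕ) (cov : ℕ → ℕ → Bool) (c i : ℕ) : ℕ :=
  if i = 0 then 1 else if i ≤ 2 * n then
    (n + 1) + (if i % 2 = 1 ∧ c % 2 = 1 ∧ cov (c / 2 % n) (i / 2) = true then 1 else 0) else
    if i = 2 * n + 1 then (if c % 2 = 1 then (n + 2) - deg n cov (c / 2 % n) else 0) else
      if c % 2 = 1 then b else n + 2

theorem deg_le (n : ℕ) (cov : ℕ → ℕ → Bool) (u : ℕ) : deg n cov u ≤ n := by
  unfold deg
  refine (Finset.sum_le_card_nsmul _ _ 1 fun j _ => ?_).trans (by simp)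
  split_ifs <;> omega

section
variable {n b C : ℕ} {cov : ℕ → ℕ → Bool} {X : Set (ℕ × ℕ)}

/-- The removed layers are removed in all columns, and the bottom tiles are present. -/
structure Unif (n C : ℕ) (X : Set (ℕ × ℕ)) : Prop where
  bot : ∀ c, (c, 0) ∉ X
  unif : ∀ c < C, ∀ i, 1 ≤ i → i ≤ 2 * n → ((c, i) ∈ X ↔ (0, i) ∈ X)

theorem cut_of_mem {ℓ : ℕ → ℕ → ℕ} {c i : ℕ} (h : (c, i) ∈ X) : cut ℓ X c i = 0 := by
  unfold cut; rw [if_pos h]

theorem cut_of_notMem {ℓ : ℕ → ℕ → ℕ} {c i : ℕ} (h : (c, i) ∉ X) : cut ℓ X c i = ℓ c i := by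
  unfold cut; rw [if_neg h]

theorem len_layer (c : ℕ) {i : ℕ} (h1 : 1 ≤ i) (h2 : i ≤ 2 * n) : len n b cov c i =
    (n + 1) + (if i % 2 = 1 ∧ c % 2 = 1 ∧ cov (c / 2 % n) (i / 2) = true then 1 else 0) := by
  unfold len
  rw [if_neg (by omega), if_pos h2]

theorem len_ref (b : ℕ) (cov : ℕ → ℕ → Bool) {c i : ℕ} (hc : c % 2 = 0) (h1 : 1 ≤ i) (h2 : i ≤ 2 * n) :
    len n b cov c i = n + 1 := by
  rw [len_layer c h1 h2, if_neg (by omega)]

theorem sum_odd (g : ℕ → ℕ) (n : ℕ) (h0 : ∀ j ≤ n, g (2 * j) = 0) :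
    ∑ i ∈ Finset.range (2 * n + 1), g i = ∑ j ∈ Finset.range n, g (2 * j + 1) := by
  induction n with
  | zero => simpa using h0 0 le_rfl
  | succ n ih =>
    rw [show 2 * (n + 1) + 1 = 2 * n + 1 + 1 + 1 from by ring, Finset.sum_range_succ,
      Finset.sum_range_succ, ih fun j hj => h0 j (by omega), Finset.sum_range_succ]
    have e0 : g (2 * n + 1 + 1) = 0 := h0 (n + 1) le_rfl
    rw [e0, add_zero]

theorem off_le (hX : Unif n C X) {c c' : ℕ} (hc : c < C) (hc' : c' < C) {i : ℕ}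
    (hi : i ≤ 2 * n + 1) :
    off (cut (len n b cov) X c) i ≤ off (cut (len n b cov) X c') i + n := by
  have h1 : off (cut (len n b cov) X c) i ≤ off (cut (len n b cov) X c') i +
      ∑ j ∈ Finset.range i, (if j % 2 = 1 then 1 else 0) := by
    unfold off
    rw [← Finset.sum_add_distrib]
    refine Finset.sum_le_sum fun j hj => ?_
    rw [Finset.mem_range] at hj
    rcases Nat.eq_zero_or_pos j with h0 | h0
    · subst h0
      rw [cut_of_notMem (hX.bot c), cut_of_notMem (hX.bot c')]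
      simp [len]
    · have h2 : j ≤ 2 * n := by omega
      by_cases h3 : (c, j) ∈ X
      · rw [cut_of_mem h3]; exact Nat.zero_le _
      · have h4 : (c', j) ∉ X := fun h => h3 ((hX.unif c hc j h0 h2).2
          ((hX.unif c' hc' j h0 h2).1 h))
        rw [cut_of_notMem h3, cut_of_notMem h4, len_layer c h0 h2, len_layer c' h0 h2]
        split_ifs <;> omega
  have h2 : ∑ j ∈ Finset.range i, (if j % 2 = 1 then 1 else 0) ≤ n := by
    calc ∑ j ∈ Finset.range i, (if j % 2 = 1 then 1 else 0)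
        ≤ ∑ j ∈ Finset.range (2 * n + 1), (if j % 2 = 1 then 1 else 0) :=
          Finset.sum_le_sum_of_subset (Finset.range_mono hi)
      _ = ∑ j ∈ Finset.range n, (if (2 * j + 1) % 2 = 1 then 1 else 0) :=
          sum_odd (fun j => if j % 2 = 1 then 1 else 0) n fun j _ => by simp
      _ ≤ n := by
          refine (Finset.sum_le_card_nsmul _ _ 1 fun j _ => ?_).trans (by simp)
          split_ifs <;> omega
  omega

open Classical in
theorem off_eq (hX : Unif n C X) {c c' : ℕ} (hc : c < C) (hc' : c' < C) (ho : c % 2 = 1)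
    (he : c' % 2 = 0) :
    off (cut (len n b cov) X c) (2 * n + 1) = off (cut (len n b cov) X c') (2 * n + 1) +
      ∑ j ∈ Finset.range n, (if (0, 2 * j + 1) ∉ X ∧ cov (c / 2 % n) j = true then 1 else 0) := by
  have e := sum_odd (fun i => if i % 2 = 1 ∧ (0, i) ∉ X ∧ cov (c / 2 % n) (i / 2) = true then 1
    else 0) n fun j _ => if_neg (by omega)
  have e2 : ∑ j ∈ Finset.range n, (if (0, 2 * j + 1) ∉ X ∧ cov (c / 2 % n) j = true then 1 else 0) =
      ∑ j ∈ Finset.range n, (fun i => if i % 2 = 1 ∧ (0, i) ∉ X ∧ cov (c / 2 % n) (i / 2) = true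
        then 1 else 0) (2 * j + 1) := by
    refine Finset.sum_congr rfl fun j _ => ?_
    have e3 : (2 * j + 1) % 2 = 1 := by omega
    have e4 : (2 * j + 1) / 2 = j := by omega
    simp only [e3, e4, true_and]
  rw [e2, ← e]
  unfold off
  rw [← Finset.sum_add_distrib]
  refine Finset.sum_congr rfl fun j hj => ?_
  rw [Finset.mem_range] at hj
  rcases Nat.eq_zero_or_pos j with h0 | h0
  · subst h0
    rw [cut_of_notMem (hX.bot c), cut_of_notMem (hX.bot c')]
    simp [len]
  · have h2 : j ≤ 2 * n := by omega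
    have h5 := hX.unif c hc j h0 h2
    by_cases h3 : (c, j) ∈ X
    · have h4 : (c', j) ∈ X := (hX.unif c' hc' j h0 h2).2 (h5.1 h3)
      rw [cut_of_mem h3, cut_of_mem h4, if_neg fun h => h.2.1 (h5.1 h3)]
    · have h4 : (c', j) ∉ X := fun h => h3 (h5.2 ((hX.unif c' hc' j h0 h2).1 h))
      have h6 : (0, j) ∉ X := fun h => h3 (h5.2 h)
      rw [cut_of_notMem h3, cut_of_notMem h4, len_layer c h0 h2, len_ref b cov he h0 h2]
      by_cases h7 : j % 2 = 1 ∧ cov (c / 2 % n) (j / 2) = true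
      · rw [if_pos ⟨h7.1, ho, h7.2⟩, if_pos ⟨h7.1, h6, h7.2⟩]
      · rw [if_neg fun h => h7 ⟨h.1, h.2.2⟩, if_neg fun h => h7 ⟨h.1, h.2.2⟩]

/-- A present layer. -/
theorem pres_layer {c i : ℕ} (hc : c < C) (h1 : 1 ≤ i) (h2 : i ≤ 2 * n) (h3 : (c, i) ∉ X) :
    Pres C (2 * n + 3) (cut (len n b cov) X) (c, i) := by
  refine ⟨hc, by show i < _; omega, ?_⟩
  show 0 < cut (len n b cov) X c i
  rw [cut_of_notMem h3, len_layer c h1 h2]
  omega

theorem Pres.notMem {M : ℕ} {ℓ : ℕ → ℕ → ℕ} {x : ℕ × ℕ} (h : Pres C M (cut ℓ X) x) : x ∉ X := by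
  intro hx
  have := h.2.2
  rw [cut_of_mem (show (x.1, x.2) ∈ X from hx)] at this
  omega

/-- The pieces of a layer in adjacent columns touch. -/
theorem link_layer (hX : Unif n C X) {c c' i : ℕ} (hc : c < C) (hc' : c' < C)
    (hcc : c + 1 = c' ∨ c' + 1 = c) (h1 : 1 ≤ i)
    (h2 : i ≤ 2 * n) (h3 : (c, i) ∉ X) :
    Link C (2 * n + 3) (colr n) (cut (len n b cov) X) (c, i) (c', i) := by
  have h4 : (c', i) ∉ X := fun h => h3 ((hX.unif c hc i h1 h2).2 ((hX.unif c' hc' i h1 h2).1 h))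
  refine ⟨pres_layer hc h1 h2 h3, pres_layer hc' h1 h2 h4, ?_, Or.inr ⟨hcc, ?_, ?_⟩⟩
  · show colr n c i = colr n c' i
    unfold colr
    split_ifs <;> omega
  · show off (cut (len n b cov) X c) i < off (cut (len n b cov) X c') (i + 1)
    have h5 := off_le (b := b) (cov := cov) hX hc hc' (i := i) (by omega)
    rw [off_succ, cut_of_notMem h4, len_layer c' h1 h2]
    omega
  · show off (cut (len n b cov) X c') i < off (cut (len n b cov) X c) (i + 1)
    have h5 := off_le (b := b) (cov := cov) hX hc' hc (i := i) (by omega)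
    rw [off_succ, cut_of_notMem h3, len_layer c h1 h2]
    omega

/-- Linked layers are not separated by a layer of the other colour. -/
theorem link_between (hX : Unif n C X) {x y : ℕ × ℕ} {l : ℕ}
    (h : Link C (2 * n + 3) (colr n) (cut (len n b cov) X) x y) (h1 : x.2 < l) (h2 : l < y.2)
    (hl1 : 1 ≤ l) (hl2 : l ≤ 2 * n) : (0, l) ∈ X := by
  by_contra hl
  obtain ⟨⟨hx1, hx2, hx3⟩, ⟨hy1, hy2, hy3⟩, hc, ht⟩ := h
  have hlx : (x.1, l) ∉ X := fun h => hl ((hX.unif x.1 hx1 l hl1 hl2).1 h)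
  have hly : (y.1, l) ∉ X := fun h => hl ((hX.unif y.1 hy1 l hl1 hl2).1 h)
  have ex : off (cut (len n b cov) X x.1) (l + 1) ≥ off (cut (len n b cov) X x.1) l + (n + 1) := by
    rw [off_succ, cut_of_notMem hlx, len_layer x.1 hl1 hl2]; omega
  have ey : off (cut (len n b cov) X y.1) (l + 1) ≥ off (cut (len n b cov) X y.1) l + (n + 1) := by
    rw [off_succ, cut_of_notMem hly, len_layer y.1 hl1 hl2]; omega
  have m1 := off_mono (cut (len n b cov) X x.1) (show x.2 + 1 ≤ l from h1)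
  have m2 := off_mono (cut (len n b cov) X y.1) (show l + 1 ≤ y.2 from h2)
  have m3 := off_mono (cut (len n b cov) X x.1) (show x.2 ≤ x.2 + 1 by omega)
  have m4 := off_mono (cut (len n b cov) X y.1) (show y.2 ≤ y.2 + 1 by omega)
  rcases ht with ⟨h5, h6⟩ | ⟨h5, h6, h7⟩
  · rw [← h5] at m2 m4 ey
    rcases h6 with h6 | h6 <;> omega
  · have h8 := off_le (b := b) (cov := cov) hX hx1 hy1 (i := l) (by omega)
    omega

/-- Only layers have the colours `0` and `1`. -/
theorem colr_lt_two {c i : ℕ} : colr n c i < 2 ↔ 1 ≤ i ∧ i ≤ 2 * n := by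
  unfold colr
  split_ifs <;> omega

theorem colr_eq_two {c i : ℕ} : colr n c i = 2 ↔ i = 2 * n + 1 := by
  unfold colr
  split_ifs <;> constructor <;> intro h <;> first | omega | (simp at h)

theorem colr_eq_three {c i : ℕ} : colr n c i = 3 ↔ 2 * n + 2 ≤ i := by
  unfold colr
  split_ifs <;> constructor <;> intro h <;> first | omega | (simp at h)

theorem colr_gt_three {c i : ℕ} : 3 < colr n c i ↔ i = 0 := by
  unfold colr
  split_ifs <;> omega

/-- Equal colours of layers. -/
theorem colr_layer {c i : ℕ} (h1 : 1 ≤ i) (h2 : i ≤ 2 * n) : colr n c i = (i + 1) % 2 := by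
  unfold colr
  split_ifs <;> omega

/-- The bottom tiles have no neighbour of their colour. -/
theorem not_link_bot (hX : Unif n C X) {c : ℕ} {y : ℕ × ℕ} :
    ¬ Link C (2 * n + 3) (colr n) (cut (len n b cov) X) (c, 0) y := by
  rintro ⟨⟨hx1, hx2, hx3⟩, ⟨hy1, hy2, hy3⟩, hc, ht⟩
  have h1 : 3 < colr n c 0 := colr_gt_three.2 rfl
  have h0 : colr n c 0 = 4 + c % 2 := by unfold colr; rw [if_pos rfl]
  have h2 : y.2 = 0 := colr_gt_three.1 (hc ▸ h1 : 3 < colr n y.1 y.2)
  have h3 : colr n y.1 y.2 = 4 + y.1 % 2 := by rw [h2]; unfold colr; rw [if_pos rfl]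
  have hc' : colr n c 0 = colr n y.1 y.2 := hc
  rw [h0, h3] at hc'
  rcases ht with ⟨h5, h6⟩ | ⟨h5, h6, h7⟩
  · have h5' : c = y.1 := h5
    rw [h2] at h6
    have h6' : off (cut (len n b cov) X c) (0 + 1) = off (cut (len n b cov) X c) 0 := by
      rcases h6 with h6 | h6 <;> exact h6
    rw [off_succ, cut_of_notMem (hX.bot c)] at h6'
    simp [len] at h6'
  · have h5' : c + 1 = y.1 ∨ y.1 + 1 = c := h5
    omega

/-- Fillers are not linked to anything. -/
theorem not_link_filler {c : ℕ} {y : ℕ × ℕ} :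
    ¬ Link C (2 * n + 3) (colr n) (cut (len n b cov) X) (c, 2 * n + 1) y := by
  rintro ⟨hx, hy, hc, ht⟩
  have h1 : colr n c (2 * n + 1) = 2 := colr_eq_two.2 rfl
  have h2 : y.2 = 2 * n + 1 := by
    have hc' : colr n c (2 * n + 1) = colr n y.1 y.2 := hc
    rw [h1] at hc'
    exact colr_eq_two.1 hc'.symm
  have odd : ∀ z : ℕ × ℕ, z.2 = 2 * n + 1 → Pres C (2 * n + 3) (cut (len n b cov) X) z →
      z.1 % 2 = 1 := by
    rintro ⟨z1, z2⟩ hz hp
    have hz' : z2 = 2 * n + 1 := hz
    subst hz'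
    by_contra h
    have h3 := hp.2.2
    have h3' : 0 < cut (len n b cov) X z1 (2 * n + 1) := h3
    rw [cut_of_notMem hp.notMem] at h3'
    unfold len at h3'
    rw [if_neg (by omega), if_neg (by omega), if_pos rfl, if_neg h] at h3'
    omega
  have h3 : c % 2 = 1 := odd (c, 2 * n + 1) rfl hx
  have h4 := odd y h2 hy
  have h5 : 0 < cut (len n b cov) X c (2 * n + 1) := hx.2.2
  rcases ht with ⟨h6, h7⟩ | ⟨h6, -⟩
  · rw [h2] at h7
    have h7' : off (cut (len n b cov) X c) (2 * n + 1 + 1) =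
        off (cut (len n b cov) X c) (2 * n + 1) := by
      rcases h7 with h7 | h7 <;> exact h7
    rw [off_succ] at h7'
    omega
  · have h6' : c + 1 = y.1 ∨ y.1 + 1 = c := h6
    omega

/-- A bar over an intact filler touches a neighbouring bar only if a set was removed. -/
theorem link_bar (hX : Unif n C X) {c : ℕ} {y : ℕ × ℕ} (ho : c % 2 = 1)
    (hf : (c, 2 * n + 1) ∉ X)
    (h : Link C (2 * n + 3) (colr n) (cut (len n b cov) X) (c, 2 * n + 2) y) :
    ∃ j < n, cov (c / 2 % n) j = true ∧ (0, 2 * j + 1) ∈ X := by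
  classical
  obtain ⟨hx, hy, hc, ht⟩ := h
  have h1 : colr n c (2 * n + 2) = 3 := colr_eq_three.2 (by omega)
  have h2 : y.2 = 2 * n + 2 := by
    have hc' : colr n c (2 * n + 2) = colr n y.1 y.2 := hc
    rw [h1] at hc'
    have := colr_eq_three.1 hc'.symm
    have := hy.2.1
    omega
  have h5 : 0 < cut (len n b cov) X c (2 * n + 2) := hx.2.2
  rcases ht with ⟨h6, h7⟩ | ⟨h6, h7, -⟩
  · exfalso
    rw [h2] at h7
    have h7' : off (cut (len n b cov) X c) (2 * n + 2 + 1) =
        off (cut (len n b cov) X c) (2 * n + 2) := by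
      rcases h7 with h7 | h7 <;> exact h7
    rw [off_succ] at h7'
    omega
  · have h6' : c + 1 = y.1 ∨ y.1 + 1 = c := h6
    have he : y.1 % 2 = 0 := by omega
    have h8 := off_eq (b := b) (cov := cov) hX hx.1 hy.1 ho he
    rw [h2] at h7
    have h7' : off (cut (len n b cov) X c) (2 * n + 1 + 1) <
      off (cut (len n b cov) X y.1) (2 * n + 1 + 1 + 1) := h7
    have h8' : off (cut (len n b cov) X c) (2 * n + 1) = off (cut (len n b cov) X y.1) (2 * n + 1) +
      ∑ j ∈ Finset.range n, (if (0, 2 * j + 1) ∉ X ∧ cov (c / 2 % n) j = true then 1 else 0) := h8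
    rw [off_succ _ (2 * n + 1), off_succ _ (2 * n + 1 + 1), off_succ _ (2 * n + 1),
      cut_of_notMem hf] at h7'
    have h9 : len n b cov c (2 * n + 1) = (n + 2) - deg n cov (c / 2 % n) := by
      unfold len
      rw [if_neg (by omega), if_neg (by omega), if_pos rfl, if_pos ho]
    have h10 : cut (len n b cov) X y.1 (2 * n + 1) = 0 := by
      by_cases h : (y.1, 2 * n + 1) ∈ X
      · exact cut_of_mem h
      · rw [cut_of_notMem h]
        unfold len
        rw [if_neg (by omega), if_neg (by omega), if_pos rfl, if_neg (by omega)]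
    have h11 : cut (len n b cov) X y.1 (2 * n + 1 + 1) ≤ n + 2 := by
      by_cases h : (y.1, 2 * n + 1 + 1) ∈ X
      · rw [cut_of_mem h]; exact Nat.zero_le _
      · rw [cut_of_notMem h]
        unfold len
        rw [if_neg (by omega), if_neg (by omega), if_neg (by omega), if_neg (by omega)]
    have h12 := deg_le n cov (c / 2 % n)
    rw [h8', h9, h10] at h7'
    have h13 : ∑ j ∈ Finset.range n, (if (0, 2 * j + 1) ∉ X ∧ cov (c / 2 % n) j = true then 1 else 0)
        < deg n cov (c / 2 % n) := by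
      omega
    by_contra hcon
    push Not at hcon
    refine absurd h13 (not_lt.2 ?_)
    unfold deg
    refine Finset.sum_le_sum fun j hj => ?_
    rw [Finset.mem_range] at hj
    by_cases h : cov (c / 2 % n) j = true
    · rw [if_pos h, if_pos ⟨hcon j hj h, h⟩]
    · rw [if_neg h]; exact Nat.zero_le _

end

end Pool.Agent.Q206.CK
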