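import Pool.Agent.Q206.CK.Fwd
import Pool.Agent.H557R2.Mve.Red
import Pool.Agent.H557R2.FptDec

/-!
# The reduction is computable in polynomial time
-/

namespace Pool.Agent.Q206.CK

open Pool.Agent.NPC Pool.Agent.H557R2.Fpt Pool.Agent.H557R2

/-- Closed neighbourhoods. -/
def covB (n : ℕ) (x : List Bool) (u j : ℕ) : Bool := decide (u = j) || Mve.adjB n x u j

section
variable {α β : Type} [TEnc α] [TEnc β]

theorem poly_rep {n : α → ℕ} {b : α → β} (hn : UPoly n) (hb : Poly b) :
    Poly (fun a => List.replicate (n a) (b a)) :=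
  (NPC.Poly.map (F := fun a _ => b a) hn (hb.comp (Poly.fst Poly.id))).congr fun a => by
    simp

theorem sum_range_list (f : ℕ → ℕ) (n : ℕ) :
    ∑ j ∈ Finset.range n, f j = ((List.range n).map f).sum := by
  induction n with
  | zero => rfl
  | succ n ih => rw [Finset.sum_range_succ, List.range_succ, List.map_append, List.sum_append, ih]; simp

theorem poly_covB {n u j : α → ℕ} {x : α → List Bool} (hn : Poly n) (hx : Poly x) (hu : Poly u)
    (hj : Poly j) : Poly (fun t => covB (n t) (x t) (u t) (j t)) := by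
  unfold covB
  have := Mve.poly_adjB hn hx hu hj
  fun_prop

theorem poly_deg {n u : α → ℕ} {x : α → List Bool} (hn : UPoly n) (hx : Poly x) (hu : Poly u) :
    Poly (fun t => deg (n t) (covB (n t) (x t)) (u t)) := by
  have h1 : Poly (fun t => ((List.range (n t)).map fun j =>
      if covB (n t) (x t) (u t) j = true then 1 else 0).sum) := by
    refine Poly.sum (NPC.Poly.map hn.range ?_)
    have h2 : Poly (fun p : α × ℕ => covB (n p.1) (x p.1) (u p.1) p.2) :=
      poly_covB (hn.toPoly.comp (by fun_prop)) (hx.comp (by fun_prop)) (hu.comp (by fun_prop))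
        (by fun_prop)
    fun_prop
  exact h1.congr fun t => by unfold deg; rw [sum_range_list]

theorem poly_len {n b c i : α → ℕ} {x : α → List Bool} (hn : UPoly n) (hb : Poly b) (hc : Poly c)
    (hi : Poly i) (hx : Poly x) :
    Poly (fun t => len (n t) (b t) (covB (n t) (x t)) (c t) (i t)) := by
  unfold len
  have h0 := hn.toPoly
  have h1 : Poly (fun t => covB (n t) (x t) (c t / 2 % n t) (i t / 2)) :=
    poly_covB h0 hx (by fun_prop) (by fun_prop)
  have h2 : Poly (fun t => deg (n t) (covB (n t) (x t)) (c t / 2 % n t)) :=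
    poly_deg hn hx (by fun_prop)
  fun_prop

theorem len_le (n b : ℕ) (cov : ℕ → ℕ → Bool) (c i : ℕ) : len n b cov c i ≤ n + 2 + b := by
  unfold len
  split_ifs <;> omega

theorem poly_colr {n c i : α → ℕ} (hn : Poly n) (hc : Poly c) (hi : Poly i) :
    Poly (fun t => colr (n t) (c t) (i t)) := by
  unfold colr
  fun_prop

end

/-- The type of the inputs of the reduction. -/
abbrev Inp : Type := ℕ × List Bool × List Unit

def kk (p : Inp) : ℕ := p.2.2.length
def nn (p : Inp) : ℕ := min p.1 p.2.1.length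
def NN (p : Inp) : ℕ := nn p * (kk p + 2)

theorem uPoly_kk : UPoly kk := UPoly.length (Poly.snd (Poly.snd Poly.id))
theorem uPoly_nn : UPoly nn :=
  UPoly.of_le (n := fun p : Inp => p.2.1.length) (by unfold nn; fun_prop)
    (UPoly.length (Poly.fst (Poly.snd Poly.id))) fun p => min_le_right _ _
theorem uPoly_NN : UPoly NN := uPoly_nn.mul (uPoly_kk.add (UPoly.const 2))
theorem uPoly_bb : UPoly fun p : Inp => bb (nn p) (NN p) := by
  have h1 : UPoly fun p : Inp => wid (nn p) :=
    (((UPoly.const 2).mul uPoly_nn).add (UPoly.const 3)).mul (uPoly_nn.add (UPoly.const 2))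
  exact (((((UPoly.const 2).mul uPoly_NN).add (UPoly.const 1)).mul h1).add (UPoly.const 1))

/-- The board. -/
def brd (p : Inp) : Board := (List.range (2 * NN p + 1)).map fun c =>
  (List.range (2 * nn p + 3)).flatMap fun i =>
    List.replicate (len (nn p) (bb (nn p) (NN p)) (covB (nn p) p.2.1) c i) (colr (nn p) c i)

theorem brd_eq (p : Inp) : brd p = board0 (nn p) (NN p) (covB (nn p) p.2.1) := rfl

theorem poly_brd : Poly brd := by
  unfold brd
  have hC : Poly fun p : Inp => List.range (2 * NN p + 1) :=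
    (((UPoly.const 2).mul uPoly_NN).add (UPoly.const 1)).range
  have hM : Poly fun p : Inp => List.range (2 * nn p + 3) :=
    (((UPoly.const 2).mul uPoly_nn).add (UPoly.const 3)).range
  refine NPC.Poly.map hC (Poly.flatMap (hM.comp (Poly.fst Poly.id)) (poly_rep ?_ ?_))
  · have hn : UPoly fun t : (Inp × ℕ) × ℕ => nn t.1.1 := uPoly_nn.comp (by fun_prop)
    have hb : UPoly fun t : (Inp × ℕ) × ℕ => bb (nn t.1.1) (NN t.1.1) :=
      uPoly_bb.comp (f := fun t : (Inp × ℕ) × ℕ => t.1.1) (by fun_prop)
    refine UPoly.of_le (n := fun t : (Inp × ℕ) × ℕ => nn t.1.1 + 2 + bb (nn t.1.1) (NN t.1.1))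
      ?_ ((hn.add (UPoly.const 2)).add hb) fun t => len_le _ _ _ _ _
    exact poly_len hn hb.toPoly (by fun_prop) (by fun_prop) (by fun_prop)
  · have hn : UPoly fun t : (Inp × ℕ) × ℕ => nn t.1.1 := uPoly_nn.comp (by fun_prop)
    exact poly_colr hn.toPoly (by fun_prop) (by fun_prop)

/-- The reduction, with the parameters in unary. -/
def redF (y : List Bool × List Unit) : List Bool × List Unit :=
  (Mve.findn y.1).elim (([], []) : List Bool × List Unit) fun n =>
    (bits ((brd (n, y.1, y.2), NN (n, y.1, y.2) * bb (nn (n, y.1, y.2)) (NN (n, y.1, y.2))) :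
      Board × ℕ), List.replicate (y.2.length + 1) ())

theorem poly_redF : Poly redF := by
  unfold redF
  refine Poly.optElim (Mve.poly_findn.comp (Poly.fst Poly.id)) (NPC.Poly.const _) (Poly.pair
    (Mve.poly_bits (Poly.pair ?_ ?_)) ?_)
  · exact poly_brd.comp (by fun_prop)
  · exact (uPoly_NN.mul uPoly_bb).toPoly.comp
      (f := fun p : (List Bool × List Unit) × ℕ => (p.2, p.1.1, p.1.2)) (by fun_prop)
  · exact (UPoly.length (l := fun p : (List Bool × List Unit) × ℕ => p.1.2) (by fun_prop)).add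
      (UPoly.const 1)

/-- The reduction. -/
def redP (y : List Bool × ℕ) : List Bool × ℕ :=
  ((redF (y.1, List.replicate y.2 ())).1, (redF (y.1, List.replicate y.2 ())).2.length)

theorem pc_redP : PC pcode pcode redP := by
  have h : PC (bits : List Bool × List Unit → List Bool) (bits : List Bool × List Unit → List Bool)
    redF := poly_redF
  obtain ⟨c, p, h⟩ := h
  refine ⟨c, p, fun y => ?_⟩
  have h1 := h (y.1, List.replicate y.2 ())
  have e : pcode (redP y) = bits (redF (y.1, List.replicate y.2 ())) := by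
    unfold pcode redP
    simp only
    congr 1
    refine Prod.ext rfl ?_
    simp only
    rw [eq_comm, List.eq_replicate_iff]
    exact ⟨rfl, fun _ _ => rfl⟩
  rw [e]
  exact h1

theorem redP_of_some {x : List Bool} {k n : ℕ} (h : Mve.findn x = some n) :
    redP (x, k) = (bits ((board0 n (n * (k + 2)) (covB n x), n * (k + 2) * bb n (n * (k + 2))) :
      Board × ℕ), k + 1) := by
  have hn := Mve.findn_some h
  have e1 : nn (n, x, List.replicate k ()) = n := by
    unfold nn
    simp only
    rw [hn]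
    exact min_eq_left (Nat.le_mul_self n)
  have e2 : kk (n, x, List.replicate k ()) = k := by
    unfold kk
    simp
  unfold redP redF
  simp only [h, Option.elim]
  rw [brd_eq]
  unfold NN
  rw [e1, e2]
  simp

theorem redP_of_none {x : List Bool} {k : ℕ} (h : Mve.findn x = none) : redP (x, k) = ([], 0) := by
  unfold redP redF
  simp [h]

theorem redP_snd_le (x : List Bool) (k : ℕ) : (redP (x, k)).2 ≤ k + 1 := by
  cases h : Mve.findn x with
  | none => rw [redP_of_none h]; exact Nat.zero_le _
  | some n => rw [redP_of_some h]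

/-! ### correctness -/

theorem covB_iff {n : ℕ} {x : List Bool} (u j : Fin n) :
    covB n x u j = true ↔ u = j ∨ (bitGraph n x).Adj j u := by
  unfold covB Mve.adjB
  rw [Bool.or_eq_true, decide_eq_true_eq, Bool.and_eq_true, Bool.not_eq_true', decide_eq_false_iff_not,
    Fin.val_inj]
  constructor
  · rintro (h | ⟨h1, h2⟩)
    · exact Or.inl h
    · refine Or.inr ⟨fun h => h1 (by rw [h]), ?_⟩
      rw [min_comm, max_comm]
      exact h2
  · rintro (h | ⟨h1, h2⟩)
    · exact Or.inl h
    · refine Or.inr ⟨fun h => h1 h.symm, ?_⟩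
      rw [min_comm, max_comm] at h2
      exact h2

theorem mem_pDominatingSet_iff {x : List Bool} {k n : ℕ} (h : x.length = n * n) :
    (x, k) ∈ pDominatingSet ↔ ∃ D : Finset ℕ, (∀ i ∈ D, i < n) ∧ D.card ≤ k ∧
      ∀ u < n, ∃ i ∈ D, covB n x u i = true := by
  classical
  constructor
  · rintro ⟨m, hm, D, hD, h1⟩
    have : m = n := by
      have h2 : m * m = n * n := by rw [← h]; exact hm.symm
      exact Nat.mul_self_inj.1 h2
    subst this
    refine ⟨D.image (fun i : Fin m => (i : ℕ)), ?_, ?_, ?_⟩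
    · intro i hi
      obtain ⟨j, -, rfl⟩ := Finset.mem_image.1 hi
      exact j.2
    · exact Finset.card_image_le.trans hD
    · intro u hu
      rcases h1 ⟨u, hu⟩ with h2 | ⟨w, hw, h2⟩
      · exact ⟨u, Finset.mem_image.2 ⟨⟨u, hu⟩, h2, rfl⟩, (covB_iff ⟨u, hu⟩ ⟨u, hu⟩).2 (Or.inl rfl)⟩
      · exact ⟨w, Finset.mem_image.2 ⟨w, hw, rfl⟩, (covB_iff ⟨u, hu⟩ w).2 (Or.inr h2)⟩
  · rintro ⟨D, h1, h2, h3⟩
    refine ⟨n, h, D.attach.image (fun i => (⟨i.1, h1 i.1 i.2⟩ : Fin n)), ?_, ?_⟩
    · exact Finset.card_image_le.trans (by rw [Finset.card_attach]; exact h2)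
    · intro v
      obtain ⟨i, hi, h4⟩ := h3 v.1 v.2
      have h5 : (⟨i, h1 i hi⟩ : Fin n) ∈ D.attach.image (fun i => (⟨i.1, h1 i.1 i.2⟩ : Fin n)) :=
        Finset.mem_image.2 ⟨⟨i, hi⟩, Finset.mem_attach _ _, rfl⟩
      rcases (covB_iff v ⟨i, h1 i hi⟩).1 h4 with h6 | h6
      · left; rw [h6]; exact h5
      · exact Or.inr ⟨_, h5, h6⟩

theorem board0_ne (n N : ℕ) (cov : ℕ → ℕ → Bool) : ∀ C ∈ board0 n N cov, C ≠ [] := by
  intro l hl
  unfold board0 boardF at hl
  rw [List.mem_map] at hl
  obtain ⟨c, -, rfl⟩ := hl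
  intro h
  have h1 := length_colF (2 * n + 3) (colr n c) (len n (bb n N) cov c)
  rw [h] at h1
  have h2 := off_mono (len n (bb n N) cov c) (show 0 + 1 ≤ 2 * n + 3 by omega)
  rw [off_succ] at h2
  simp [len] at h2
  simp at h1
  omega

theorem board0_lt (n N : ℕ) (cov : ℕ → ℕ → Bool) : ∀ C ∈ board0 n N cov, ∀ t ∈ C, t < 6 := by
  intro l hl t ht
  unfold board0 boardF at hl
  rw [List.mem_map] at hl
  obtain ⟨c, -, rfl⟩ := hl
  unfold colF at ht
  rw [List.mem_flatMap] at ht
  obtain ⟨i, -, ht⟩ := ht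
  rw [List.eq_of_mem_replicate ht]
  unfold colr
  split_ifs <;> omega

/-- **Correctness of the reduction.** -/
theorem mem_iff (x : List Bool) (k : ℕ) : (x, k) ∈ pDominatingSet ↔ redP (x, k) ∈ scoreProblem := by
  cases h : Mve.findn x with
  | none =>
    rw [redP_of_none h]
    constructor
    · rintro ⟨n, hn, -⟩
      exact absurd hn (Mve.findn_none h n)
    · rintro ⟨B, S, h1, -⟩
      exact absurd h1.symm (Mve.bits_ne_nil _)
  | some n =>
    rw [redP_of_some h, mem_pDominatingSet_iff (Mve.findn_some h)]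
    constructor
    · rintro ⟨D, h1, h2, h3⟩
      obtain ⟨B', h4, h5⟩ := forward (N := n * (k + 2)) h1 h3 (fun h => by
        rcases Nat.eq_zero_or_pos n with h0 | h0
        · subst h0; simp at h
        · exact h0)
      exact ⟨_, _, rfl, board0_ne _ _ _, D.card + 1, by show D.card + 1 ≤ k + 1; omega, B', h4, h5⟩
    · rintro ⟨B, S, h1, -, j, hj, B', h4, h5⟩
      have h6 := bits_injective h1
      rw [Prod.mk.injEq] at h6
      obtain ⟨h7, h8⟩ := h6
      subst h7
      subst h8
      rcases Nat.eq_zero_or_pos n with h0 | h0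
      · subst h0
        exact ⟨∅, by simp, by simp, by simp⟩
      · exact backward h0 rfl hj h4 h5.le

/-- **Correctness of the reduction**, for boards with six colours. -/
theorem mem_iff_colours (x : List Bool) (k : ℕ) :
    (x, k) ∈ pDominatingSet ↔ redP (x, k) ∈ scoreProblemColours 6 := by
  rw [mem_iff]
  constructor
  · rintro ⟨B, S, h1, h2, h3⟩
    refine ⟨B, S, h1, h2, ?_, h3⟩
    cases h : Mve.findn x with
    | none =>
      rw [redP_of_none h] at h1
      exact absurd h1.symm (Mve.bits_ne_nil _)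
    | some n =>
      rw [redP_of_some h] at h1
      have h6 := bits_injective h1
      rw [Prod.mk.injEq] at h6
      rw [← h6.1]
      exact board0_lt _ _ _
  · rintro ⟨B, S, h1, h2, -, h3⟩
    exact ⟨B, S, h1, h2, h3⟩

end Pool.Agent.Q206.CK
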